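import Mathlib.CategoryTheory.Category.Init
import Mathlib.Topology.Algebra.Module.ModuleTopology
import Mathlib.Algebra.Order.Star.Real
import Mathlib.Analysis.Calculus.Deriv.Add
import Mathlib.Analysis.Calculus.Deriv.Inv
import Mathlib.Analysis.Calculus.ContDiff.Operations
import Mathlib.Analysis.CStarAlgebra.Classes
import Mathlib.Topology.Sheaves.Presheaf
import Mathlib.Algebra.Ring.IsFormallyReal
import Mathlib.Analysis.Complex.LocallyUniformLimit
import Mathlib.Combinatorics.SimpleGraph.Basic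
import Mathlib.Topology.Separation.CompletelyRegular
import Mathlib.Analysis.Calculus.Deriv.MeanValue
import Mathlib.MeasureTheory.Integral.IntervalIntegral.FundThmCalculus
import Mathlib.Analysis.SpecialFunctions.SmoothTransition
import Mathlib.Analysis.InnerProductSpace.Basic
import Mathlib.Analysis.SpecialFunctions.Log.Deriv
import Mathlib.Order.CompletePartialOrder

-- ======== part 0: formerly Pool.Agent.MP_6b7ec3_an.Mob
section MrgPart0

/-!
Three Moebius involutions `s j z = c j + k j / (z - c j)` preserving the disc of radius `L`.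
The circle `‖z - c j‖ = r j` is orthogonal to the circle of radius `L` and `s j` exchanges its
two sides.
-/

set_option autoImplicit false

open Set Topology Filter Complex
open scoped ContDiff ComplexConjugate

namespace Pool.Agent.MP_6b7ec3_an

/-- Radius of the invariant disc. -/
noncomputable def L : ℝ := 999999 / 2

/-- Centres. -/
noncomputable def c : Fin 3 → ℂ :=
  ![⟨L + 1, 0⟩, ⟨L - 1 / 999999, 1⟩, ⟨L - 1 / 999999, -1⟩]

/-- Radii. -/
noncomputable def r : Fin 3 → ℝ := ![1000, 1 / 999999, 1 / 999999]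

@[simp] lemma r0 : r 0 = 1000 := rfl
@[simp] lemma r1 : r 1 = 1 / 999999 := rfl
@[simp] lemma r2 : r 2 = 1 / 999999 := rfl

lemma r_pos (j : Fin 3) : 0 < r j := by
  fin_cases j <;> simp

lemma r_ge (j : Fin 3) : 1 / 999999 ≤ r j := by
  fin_cases j <;> simp
  norm_num

lemma normSq_c (j : Fin 3) : normSq (c j) = L ^ 2 + r j ^ 2 := by
  fin_cases j <;> simp [c, r, normSq_apply, L] <;> norm_num

lemma c_ne_zero (j : Fin 3) : c j ≠ 0 := by
  intro h
  have h1 := normSq_c j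
  have h2 := r_pos j
  rw [h, map_zero] at h1
  nlinarith [sq_nonneg L]

/-- Numerators. -/
noncomputable def k (j : Fin 3) : ℂ := ((r j ^ 2 : ℝ) : ℂ) * c j / conj (c j)

lemma norm_k (j : Fin 3) : ‖k j‖ = r j ^ 2 := by
  have h : ‖c j‖ ≠ 0 := by simpa using c_ne_zero j
  rw [k, norm_div, norm_mul, Complex.norm_conj, Complex.norm_real, Real.norm_eq_abs,
    abs_of_nonneg (sq_nonneg _)]
  field_simp

lemma normSq_k (j : Fin 3) : normSq (k j) = (r j ^ 2) ^ 2 := by
  rw [Complex.normSq_eq_norm_sq, norm_k]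

lemma k_ne_zero (j : Fin 3) : k j ≠ 0 := by
  rw [← norm_ne_zero_iff, norm_k]
  exact (pow_pos (r_pos j) 2).ne'

/-- The involutions. -/
noncomputable def s (j : Fin 3) (z : ℂ) : ℂ := c j + k j / (z - c j)

/-- Distance to the centres. -/
noncomputable def n (j : Fin 3) (z : ℂ) : ℝ := ‖z - c j‖

/-- Modulus of the derivative of `s j`. -/
noncomputable def J (j : Fin 3) (z : ℂ) : ℝ := r j ^ 2 / normSq (z - c j)

/-- Defining function of the disc. -/
noncomputable def δ (w : ℂ) : ℝ := L ^ 2 - normSq w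

lemma n_nonneg (j : Fin 3) (z : ℂ) : 0 ≤ n j z := norm_nonneg _

lemma n_pos {j : Fin 3} {z : ℂ} (h : z ≠ c j) : 0 < n j z := norm_pos_iff.mpr (sub_ne_zero.mpr h)

lemma ne_of_n_pos {j : Fin 3} {z : ℂ} (h : 0 < n j z) : z ≠ c j :=
  sub_ne_zero.mp (norm_pos_iff.mp h)

lemma normSq_n (j : Fin 3) (z : ℂ) : normSq (z - c j) = n j z ^ 2 := Complex.normSq_eq_norm_sq _

lemma J_eq (j : Fin 3) (z : ℂ) : J j z = r j ^ 2 / n j z ^ 2 := by rw [J, normSq_n]

lemma J_nonneg (j : Fin 3) (z : ℂ) : 0 ≤ J j z := by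
  rw [J_eq]
  positivity

lemma J_pos {j : Fin 3} {z : ℂ} (h : z ≠ c j) : 0 < J j z := by
  have := n_pos h
  have := r_pos j
  rw [J_eq]
  positivity

lemma continuous_n (j : Fin 3) : Continuous (n j) := by
  unfold n
  fun_prop

lemma s_sub (j : Fin 3) (z : ℂ) : s j z - c j = k j / (z - c j) := by
  simp [s]

lemma n_s (j : Fin 3) (z : ℂ) : n j (s j z) = r j ^ 2 / n j z := by
  rw [n, s_sub, norm_div, norm_k, n]

lemma n_mul_n_s {j : Fin 3} {z : ℂ} (h : z ≠ c j) : n j z * n j (s j z) = r j ^ 2 := by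
  have := n_pos h
  rw [n_s]
  field_simp

lemma s_ne {j : Fin 3} {z : ℂ} (h : z ≠ c j) : s j z ≠ c j := by
  rw [← sub_ne_zero, s_sub]
  exact div_ne_zero (k_ne_zero j) (sub_ne_zero.mpr h)

lemma s_s {j : Fin 3} {z : ℂ} (h : z ≠ c j) : s j (s j z) = z := by
  have h1 := k_ne_zero j
  have h2 := sub_ne_zero.mpr h
  rw [s, s_sub]
  field_simp
  ring

lemma J_s {j : Fin 3} {z : ℂ} (h : z ≠ c j) : J j (s j z) * J j z = 1 := by
  have := n_pos h
  have := r_pos j
  rw [J_eq, J_eq, n_s]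
  field_simp

lemma normSq_s_sub {j : Fin 3} {z w : ℂ} (hz : z ≠ c j) (hw : w ≠ c j) :
    normSq (s j z - s j w) = J j z * J j w * normSq (z - w) := by
  have h1 := sub_ne_zero.mpr hz
  have h2 := sub_ne_zero.mpr hw
  have h : s j z - s j w = -k j * (z - w) / ((z - c j) * (w - c j)) := by
    unfold s
    field_simp
    ring
  have h3 : normSq (z - c j) ≠ 0 := by simpa using h1
  have h4 : normSq (w - c j) ≠ 0 := by simpa using h2
  rw [h, map_div₀, map_mul, map_mul, normSq_neg, normSq_k, J, J]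
  field_simp

lemma δ_s {j : Fin 3} {w : ℂ} (hw : w ≠ c j) : δ (s j w) = J j w * δ w := by
  have h2 := sub_ne_zero.mpr hw
  have h0 := c_ne_zero j
  have h0' : conj (c j) ≠ 0 := by simpa using h0
  have hc : c j * conj (c j) = ((L ^ 2 + r j ^ 2 : ℝ) : ℂ) := by
    rw [Complex.mul_conj, normSq_c]
  have h : s j w = c j / conj (c j) * (conj (c j) * w - ((L ^ 2 : ℝ) : ℂ)) / (w - c j) := by
    unfold s k
    field_simp
    push_cast at hc ⊢
    linear_combination (-1 : ℂ) * hc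
  have h4 : normSq (w - c j) ≠ 0 := by simpa using h2
  have h5 : normSq (c j) ≠ 0 := by simpa using h0
  have h6 := normSq_c j
  rw [δ, δ, h, map_div₀, map_mul, map_div₀, normSq_conj, div_self h5, J]
  field_simp
  simp only [normSq_apply, sub_re, sub_im, mul_re, mul_im, conj_re, conj_im, ofReal_re,
    ofReal_im] at h6 ⊢
  linear_combination (L ^ 2 - w.re * w.re - w.im * w.im) * h6

lemma hasDerivAt_s {j : Fin 3} {z : ℂ} (h : z ≠ c j) :
    HasDerivAt (s j) (-k j / (z - c j) ^ 2) z := by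
  have h2 := sub_ne_zero.mpr h
  have := (((hasDerivAt_id z).sub_const (c j)).inv h2).const_mul (k j) |>.const_add (c j)
  have e : s j = fun x => c j + k j * (fun x => id x - c j)⁻¹ x := by
    funext x
    simp [s, div_eq_mul_inv]
  rw [e]
  refine this.congr_deriv ?_
  simp only [id]
  field_simp

lemma contDiffAt_s {j : Fin 3} {z : ℂ} (h : z ≠ c j) {m : WithTop ℕ∞} :
    ContDiffAt ℂ m (s j) z := by
  unfold s
  exact contDiffAt_const.add (contDiffAt_const.div (contDiffAt_id.sub contDiffAt_const)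
    (sub_ne_zero.mpr h))

lemma ne_c_of_δ {w : ℂ} (h : 0 ≤ δ w) (j : Fin 3) : w ≠ c j := by
  rintro rfl
  have := r_pos j
  rw [δ, normSq_c] at h
  nlinarith

lemma δ_s_nonneg {j : Fin 3} {w : ℂ} (h : 0 ≤ δ w) : 0 ≤ δ (s j w) := by
  rw [δ_s (ne_c_of_δ h j)]
  exact mul_nonneg (J_nonneg _ _) h

lemma δ_s_pos {j : Fin 3} {w : ℂ} (h : 0 < δ w) : 0 < δ (s j w) := by
  rw [δ_s (ne_c_of_δ h.le j)]
  exact mul_pos (J_pos (ne_c_of_δ h.le j)) h

lemma L_pos : 0 < L := by norm_num [L]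

lemma δ_nonneg_iff (w : ℂ) : 0 ≤ δ w ↔ ‖w‖ ≤ L := by
  rw [δ, Complex.normSq_eq_norm_sq, sub_nonneg, sq_le_sq₀ (norm_nonneg _) L_pos.le]

lemma δ_pos_iff (w : ℂ) : 0 < δ w ↔ ‖w‖ < L := by
  rw [δ, Complex.normSq_eq_norm_sq, sub_pos, sq_lt_sq₀ (norm_nonneg _) L_pos.le]

lemma one_le_n0 {w : ℂ} (h : 0 ≤ δ w) : 1 ≤ n 0 w := by
  rw [δ_nonneg_iff] at h
  have h1 : ‖c 0‖ = L + 1 := by
    have : c 0 = ((L + 1 : ℝ) : ℂ) := by
      apply Complex.ext <;> simp [c]
    rw [this, Complex.norm_real, Real.norm_eq_abs, abs_of_pos (by linarith [L_pos])]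
  have h2 := norm_sub_norm_le (c 0) w
  rw [norm_sub_rev] at h2
  unfold n
  linarith

/-! Distances between the centres. -/

lemma n_le (i j : Fin 3) (z : ℂ) : n i z ≤ n j z + ‖c i - c j‖ := by
  have : z - c i = (z - c j) - (c i - c j) := by ring
  unfold n
  rw [this]
  exact norm_sub_le _ _

lemma le_n_add (i j : Fin 3) (z : ℂ) : ‖c i - c j‖ ≤ n i z + n j z := by
  have : c i - c j = (z - c j) - (z - c i) := by ring
  unfold n
  rw [this, add_comm]
  exact norm_sub_le _ _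

lemma norm_c01 : 1 ≤ ‖c 0 - c 1‖ ∧ ‖c 0 - c 1‖ ≤ 3 / 2 := by
  have h : ‖c 0 - c 1‖ ^ 2 = (1 + 1 / 999999) ^ 2 + 1 := by
    rw [← Complex.normSq_eq_norm_sq]
    simp [c, normSq_apply]
    ring
  have := norm_nonneg (c 0 - c 1)
  constructor <;> nlinarith

lemma norm_c02 : 1 ≤ ‖c 0 - c 2‖ ∧ ‖c 0 - c 2‖ ≤ 3 / 2 := by
  have h : ‖c 0 - c 2‖ ^ 2 = (1 + 1 / 999999) ^ 2 + 1 := by
    rw [← Complex.normSq_eq_norm_sq]
    simp [c, normSq_apply]
    ring
  have := norm_nonneg (c 0 - c 2)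
  constructor <;> nlinarith

lemma norm_c12 : ‖c 1 - c 2‖ = 2 := by
  have h : ‖c 1 - c 2‖ ^ 2 = 2 ^ 2 := by
    rw [← Complex.normSq_eq_norm_sq]
    simp [c, normSq_apply]
    norm_num
  exact (sq_eq_sq₀ (norm_nonneg _) (by norm_num)).mp h

/-- All the triangle inequalities that are used. -/
lemma tri (z : ℂ) : n 0 z ≤ n 1 z + 3 / 2 ∧ n 1 z ≤ n 0 z + 3 / 2 ∧ n 0 z ≤ n 2 z + 3 / 2 ∧
    n 2 z ≤ n 0 z + 3 / 2 ∧ n 1 z ≤ n 2 z + 2 ∧ n 2 z ≤ n 1 z + 2 ∧ 2 ≤ n 1 z + n 2 z ∧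
    1 ≤ n 0 z + n 1 z ∧ 1 ≤ n 0 z + n 2 z ∧ 0 ≤ n 0 z ∧ 0 ≤ n 1 z ∧ 0 ≤ n 2 z := by
  have a1 := n_le 0 1 z
  have a2 := n_le 1 0 z
  have a3 := n_le 0 2 z
  have a4 := n_le 2 0 z
  have a5 := n_le 1 2 z
  have a6 := n_le 2 1 z
  have a7 := le_n_add 1 2 z
  have a8 := le_n_add 0 1 z
  have a9 := le_n_add 0 2 z
  rw [norm_sub_rev] at a2 a4 a6
  have := norm_c01
  have := norm_c02
  have := norm_c12
  refine ⟨?_, ?_, ?_, ?_, ?_, ?_, ?_, ?_, ?_, n_nonneg _ _, n_nonneg _ _, n_nonneg _ _⟩ <;>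
    linarith [norm_c01.1, norm_c01.2, norm_c02.1, norm_c02.2]

lemma n_sub_le (j : Fin 3) (z w : ℂ) : |n j z - n j w| ≤ ‖z - w‖ := by
  have := abs_norm_sub_norm_le (z - c j) (w - c j)
  rwa [sub_sub_sub_cancel_right] at this

/-- The thickened fundamental domain. -/
def Z (κ : ℝ) : Set ℂ := {z | n 0 z < κ * r 0 ∧ r 1 < κ * n 1 z ∧ r 2 < κ * n 2 z}

/-- The collars. -/
def Col (κ : ℝ) (j : Fin 3) : Set ℂ := {z | r j < κ * n j z ∧ n j z < κ * r j}

lemma isOpen_Z (κ : ℝ) : IsOpen (Z κ) := by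
  exact (isOpen_lt (continuous_n 0) continuous_const).inter
    ((isOpen_lt continuous_const (continuous_const.mul (continuous_n 1))).inter
      (isOpen_lt continuous_const (continuous_const.mul (continuous_n 2))))

lemma isOpen_Col (κ : ℝ) (j : Fin 3) : IsOpen (Col κ j) := by
  exact (isOpen_lt continuous_const (continuous_const.mul (continuous_n j))).inter
    (isOpen_lt (continuous_n j) continuous_const)

lemma Col_ne {κ : ℝ} {j : Fin 3} {z : ℂ} (h : z ∈ Col κ j) : z ≠ c j := by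
  rintro rfl
  have h1 := h.1
  have := r_pos j
  simp [n] at h1
  linarith

lemma Col_s_mem {κ : ℝ} {j : Fin 3} {z : ℂ} (h : z ∈ Col κ j) : s j z ∈ Col κ j := by
  have h0 := n_pos (Col_ne h)
  have h1 := r_pos j
  obtain ⟨h2, h3⟩ := h
  constructor
  · rw [n_s, ← mul_div_assoc, lt_div_iff₀ h0]
    nlinarith
  · rw [n_s, div_lt_iff₀ h0]
    nlinarith

lemma Col_mono {κ κ' : ℝ} (hk : κ ≤ κ') {j : Fin 3} {z : ℂ} (h : z ∈ Col κ j) :
    z ∈ Col κ' j := by
  have h0 := n_nonneg j z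
  have h1 := r_pos j
  exact ⟨by nlinarith [h.1], by nlinarith [h.2]⟩

lemma Z_mono {κ κ' : ℝ} (hk : κ ≤ κ') {z : ℂ} (h : z ∈ Z κ) : z ∈ Z κ' := by
  have h0 := n_nonneg 1 z
  have h1 := n_nonneg 2 z
  have h2 := r_pos 0
  exact ⟨by nlinarith [h.1], by nlinarith [h.2.1], by nlinarith [h.2.2]⟩

lemma Col_unique {i j : Fin 3} {z : ℂ} (hi : z ∈ Col 20 i) (hj : z ∈ Col 20 j) : i = j := by
  have := tri z
  obtain ⟨a1, a2⟩ := hi
  obtain ⟨b1, b2⟩ := hj
  fin_cases i <;> fin_cases j <;> first | rfl | (exfalso; simp at a1 a2 b1 b2; linarith)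

lemma Col_mem_Z {κ : ℝ} (h1 : 1 ≤ κ) (hk : κ ≤ 20) {j : Fin 3} {z : ℂ} (h : z ∈ Col κ j) :
    z ∈ Z κ := by
  have := tri z
  obtain ⟨a1, a2⟩ := Col_mono hk h
  obtain ⟨b1, b2⟩ := h
  fin_cases j <;> simp at a1 a2 b1 b2 <;> refine ⟨?_, ?_, ?_⟩ <;> simp <;> nlinarith

lemma Z_ne1 {κ : ℝ} {z : ℂ} (h : z ∈ Z κ) : z ≠ c 1 := by
  rintro rfl
  have h1 := h.2.1
  simp [n] at h1
  linarith

lemma Z_ne2 {κ : ℝ} {z : ℂ} (h : z ∈ Z κ) : z ≠ c 2 := by
  rintro rfl
  have h1 := h.2.2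
  simp [n] at h1
  linarith

end Pool.Agent.MP_6b7ec3_an

end MrgPart0

-- ======== part 1: formerly Pool.Agent.MP_6b7ec3_an.Series
section MrgPart1

/-!
A non-constant bounded holomorphic function on the disc, invariant under the three involutions:
the Poincare series of the identity over the reduced words.  Its periods vanish because the
generators are involutions.
-/

set_option autoImplicit false

open Set Topology Filter Complex
open scoped ContDiff ComplexConjugate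

namespace Pool.Agent.MP_6b7ec3_an

/-- Action of a word, first letter first. -/
noncomputable def act : List (Fin 3) → ℂ → ℂ
  | [], z => z
  | i :: l, z => act l (s i z)

/-- Modulus of the derivative of the action of a word. -/
noncomputable def JJ : List (Fin 3) → ℂ → ℝ
  | [], _ => 1
  | i :: l, z => J i z * JJ l (s i z)

lemma JJ_nonneg (l : List (Fin 3)) (z : ℂ) : 0 ≤ JJ l z := by
  induction l generalizing z with
  | nil => exact zero_le_one
  | cons i l ih => exact mul_nonneg (J_nonneg _ _) (ih _)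

lemma δ_act (l : List (Fin 3)) {w : ℂ} (hw : 0 ≤ δ w) : δ (act l w) = JJ l w * δ w := by
  induction l generalizing w with
  | nil => simp [act, JJ]
  | cons i l ih =>
    rw [act, JJ, ih (δ_s_nonneg hw), δ_s (ne_c_of_δ hw i)]
    ring

lemma normSq_act (l : List (Fin 3)) {x y : ℂ} (hx : 0 ≤ δ x) (hy : 0 ≤ δ y) :
    normSq (act l x - act l y) = JJ l x * JJ l y * normSq (x - y) := by
  induction l generalizing x y with
  | nil => simp [act, JJ]
  | cons i l ih =>
    rw [act, act, JJ, JJ, ih (δ_s_nonneg hx) (δ_s_nonneg hy),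
      normSq_s_sub (ne_c_of_δ hx i) (ne_c_of_δ hy i)]
    ring

lemma differentiableAt_act (l : List (Fin 3)) {w : ℂ} (hw : 0 ≤ δ w) :
    DifferentiableAt ℂ (act l) w := by
  induction l generalizing w with
  | nil => exact differentiableAt_id
  | cons i l ih =>
    exact DifferentiableAt.comp (g := act l) w (ih (δ_s_nonneg hw))
      (hasDerivAt_s (ne_c_of_δ hw i)).differentiableAt

/-- The closed ping-pong regions. -/
def Dsc : Fin 3 → Set ℂ := ![{z | r 0 ≤ n 0 z}, {z | n 1 z ≤ r 1}, {z | n 2 z ≤ r 2}]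

/-- The closed fundamental domain. -/
def F0 : Set ℂ := {z | n 0 z ≤ r 0 ∧ r 1 ≤ n 1 z ∧ r 2 ≤ n 2 z}

/-- Weights for the contraction estimate. -/
noncomputable def m : Fin 3 → ℝ := ![1 / 10 ^ 7, 1, 1]

@[simp] lemma m0 : m 0 = 1 / 10 ^ 7 := rfl
@[simp] lemma m1 : m 1 = 1 := rfl
@[simp] lemma m2 : m 2 = 1 := rfl
@[simp] lemma mem_Dsc0 (z : ℂ) : z ∈ Dsc 0 ↔ r 0 ≤ n 0 z := Iff.rfl
@[simp] lemma mem_Dsc1 (z : ℂ) : z ∈ Dsc 1 ↔ n 1 z ≤ r 1 := Iff.rfl
@[simp] lemma mem_Dsc2 (z : ℂ) : z ∈ Dsc 2 ↔ n 2 z ≤ r 2 := Iff.rfl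

lemma m_pos (j : Fin 3) : 0 < m j := by
  fin_cases j <;> simp

lemma m_le (j : Fin 3) : m j ≤ 1 := by
  fin_cases j <;> simp
  norm_num

lemma m_ge (j : Fin 3) : 1 ≤ 10 ^ 7 * m j := by
  fin_cases j <;> simp
  all_goals norm_num

lemma J_le {j : Fin 3} {z : ℂ} {a : ℝ} (ha : 0 < a) (h : a ≤ n j z) : J j z ≤ r j ^ 2 / a ^ 2 := by
  rw [J_eq]
  gcongr

lemma J0_le {x : ℂ} (hx : 0 ≤ δ x) : J 0 x ≤ 10 ^ 6 := by
  have := J_le one_pos (one_le_n0 hx)
  simp at this
  linarith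

lemma s_mem_Dsc0 {x : ℂ} (hx : x ≠ c 0) (h : n 0 x ≤ r 0) : s 0 x ∈ Dsc 0 := by
  have := n_pos hx
  rw [mem_Dsc0, n_s, le_div_iff₀ this]
  nlinarith [r_pos 0]

lemma s_mem_Dsc1 {x : ℂ} (h : r 1 ≤ n 1 x) : s 1 x ∈ Dsc 1 := by
  have := r_pos 1
  rw [mem_Dsc1, n_s, div_le_iff₀ (by linarith)]
  nlinarith

lemma s_mem_Dsc2 {x : ℂ} (h : r 2 ≤ n 2 x) : s 2 x ∈ Dsc 2 := by
  have := r_pos 2
  rw [mem_Dsc2, n_s, div_le_iff₀ (by linarith)]
  nlinarith

lemma J1_le {x : ℂ} (h : 1 ≤ n 1 x) : J 1 x ≤ 11 / 10 ^ 13 := by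
  have := J_le one_pos h
  simp at this
  linarith [show ((999999 : ℝ) ^ 2)⁻¹ ≤ 11 / 10 ^ 13 by norm_num]

lemma J2_le {x : ℂ} (h : 1 ≤ n 2 x) : J 2 x ≤ 11 / 10 ^ 13 := by
  have := J_le one_pos h
  simp at this
  linarith [show ((999999 : ℝ) ^ 2)⁻¹ ≤ 11 / 10 ^ 13 by norm_num]

lemma step_Dsc {i j : Fin 3} (hij : i ≠ j) {x : ℂ} (hx : x ∈ Dsc i) (hδ : 0 ≤ δ x) :
    s j x ∈ Dsc j ∧ m j * J j x ≤ 1 / 10 * m i := by
  have ht := tri x
  have h0 := J0_le hδ
  have hc := ne_c_of_δ hδ 0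
  fin_cases i <;> fin_cases j <;> simp only [Fin.zero_eta, Fin.mk_one, Fin.reduceFinMk,
    mem_Dsc0, mem_Dsc1, mem_Dsc2, r0, r1, r2, m0, m1, m2, ne_eq, not_true_eq_false] at hx hij ⊢
  · exact ⟨s_mem_Dsc1 (by simp; linarith), by linarith [J1_le (x := x) (by linarith)]⟩
  · exact ⟨s_mem_Dsc2 (by simp; linarith), by linarith [J2_le (x := x) (by linarith)]⟩
  · exact ⟨s_mem_Dsc0 hc (by simp; linarith), by linarith⟩
  · exact ⟨s_mem_Dsc2 (by simp; linarith), by linarith [J2_le (x := x) (by linarith)]⟩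
  · exact ⟨s_mem_Dsc0 hc (by simp; linarith), by linarith⟩
  · exact ⟨s_mem_Dsc1 (by simp; linarith), by linarith [J1_le (x := x) (by linarith)]⟩

lemma step_F0 (j : Fin 3) {x : ℂ} (hx : x ∈ F0) (hδ : 0 ≤ δ x) :
    s j x ∈ Dsc j ∧ m j * J j x ≤ 1 := by
  have h0 := J0_le hδ
  have hc := ne_c_of_δ hδ 0
  obtain ⟨h1, h2, h3⟩ := hx
  fin_cases j <;> simp only [Fin.zero_eta, Fin.mk_one, Fin.reduceFinMk, m0, m1, m2]
  · exact ⟨s_mem_Dsc0 hc h1, by linarith⟩
  · refine ⟨s_mem_Dsc1 h2, ?_⟩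
    have := J_le (r_pos 1) h2
    rw [div_self (pow_pos (r_pos 1) 2).ne'] at this
    linarith
  · refine ⟨s_mem_Dsc2 h3, ?_⟩
    have := J_le (r_pos 2) h3
    rw [div_self (pow_pos (r_pos 2) 2).ne'] at this
    linarith

lemma JJ_le_Dsc (l : List (Fin 3)) {i : Fin 3} (hl : List.IsChain (· ≠ ·) (i :: l)) {x : ℂ}
    (hx : x ∈ Dsc i) (hδ : 0 ≤ δ x) : JJ l x ≤ 10 ^ 7 * m i * (1 / 10) ^ l.length := by
  induction l generalizing i x with
  | nil => simpa [JJ] using m_ge i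
  | cons j l ih =>
    rw [List.isChain_cons_cons] at hl
    obtain ⟨h1, h2⟩ := step_Dsc hl.1 hx hδ
    have h3 := ih hl.2 h1 (δ_s_nonneg hδ)
    have h4 := J_nonneg j x
    rw [JJ, List.length_cons, pow_succ]
    calc J j x * JJ l (s j x) ≤ J j x * (10 ^ 7 * m j * (1 / 10) ^ l.length) := by gcongr
      _ = 10 ^ 7 * (m j * J j x) * (1 / 10) ^ l.length := by ring
      _ ≤ 10 ^ 7 * (1 / 10 * m i) * (1 / 10) ^ l.length := by gcongr
      _ = _ := by ring

lemma JJ_le_F0 {l : List (Fin 3)} (hl : List.IsChain (· ≠ ·) l) {x : ℂ}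
    (hx : x ∈ F0) (hδ : 0 ≤ δ x) : JJ l x ≤ 10 ^ 8 * (1 / 10) ^ l.length := by
  cases l with
  | nil => simp [JJ]; norm_num
  | cons j l =>
    obtain ⟨h1, h2⟩ := step_F0 j hx hδ
    have h3 := JJ_le_Dsc l hl h1 (δ_s_nonneg hδ)
    have h4 := J_nonneg j x
    rw [JJ, List.length_cons, pow_succ]
    calc J j x * JJ l (s j x) ≤ J j x * (10 ^ 7 * m j * (1 / 10) ^ l.length) := by gcongr
      _ = 10 ^ 7 * (m j * J j x) * (1 / 10) ^ l.length := by ring
      _ ≤ 10 ^ 7 * 1 * (1 / 10) ^ l.length := by gcongr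
      _ = _ := by ring

lemma JJ_le_far {l : List (Fin 3)} (hl : List.IsChain (· ≠ ·) l) (hl0 : l ≠ [0]) {x : ℂ}
    (hx : x ∈ F0) (hδ : 0 ≤ δ x) (h1 : 1 ≤ n 1 x) (h2 : 1 ≤ n 2 x) :
    JJ l x ≤ 1100 * (1 / 10) ^ l.length := by
  have key : ∀ (j : Fin 3) (l : List (Fin 3)) (x : ℂ), j ≠ 0 → List.IsChain (· ≠ ·) (j :: l) →
      0 ≤ δ x → 1 ≤ n 1 x → 1 ≤ n 2 x →
      JJ (j :: l) x ≤ 11 / 10 ^ 6 * (1 / 10) ^ l.length := by
    intro j l x hj hl hδ h1 h2
    have hJ : J j x ≤ 11 / 10 ^ 13 ∧ s j x ∈ Dsc j ∧ m j = 1 := by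
      fin_cases j
      · exact (hj rfl).elim
      · exact ⟨J1_le h1, s_mem_Dsc1 (by simp; linarith), rfl⟩
      · exact ⟨J2_le h2, s_mem_Dsc2 (by simp; linarith), rfl⟩
    have h3 := JJ_le_Dsc l hl hJ.2.1 (δ_s_nonneg hδ)
    rw [hJ.2.2] at h3
    have h4 := JJ_nonneg l (s j x)
    rw [JJ]
    calc J j x * JJ l (s j x) ≤ (11 / 10 ^ 13) * (10 ^ 7 * 1 * (1 / 10) ^ l.length) := by
          gcongr
          exact hJ.1
      _ = _ := by ring
  match l, hl, hl0 with
  | [], _, _ => simp [JJ]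
  | [j], hl, hl0 =>
    have hj : j ≠ 0 := fun h => hl0 (by rw [h])
    have := key j [] x hj hl hδ h1 h2
    simp only [List.length_nil, pow_zero, List.length_cons] at this ⊢
    linarith
  | j :: i :: l, hl, _ =>
    have hp : (0 : ℝ) < (1 / 10) ^ l.length := by positivity
    by_cases hj : j = 0
    · subst hj
      rw [List.isChain_cons_cons] at hl
      have hs := s_mem_Dsc0 (ne_c_of_δ hδ 0) hx.1
      have ht := tri (s 0 x)
      rw [mem_Dsc0, r0] at hs
      have h3 := key i l (s 0 x) hl.1.symm hl.2 (δ_s_nonneg hδ) (by linarith) (by linarith)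
      have h4 := J0_le hδ
      have h5 := JJ_nonneg (i :: l) (s 0 x)
      rw [JJ]
      simp only [List.length_cons, pow_succ]
      calc J 0 x * JJ (i :: l) (s 0 x) ≤ 10 ^ 6 * (11 / 10 ^ 6 * (1 / 10) ^ l.length) := by
            gcongr
        _ = _ := by ring
    · have := key j (i :: l) x hj hl hδ h1 h2
      simp only [List.length_cons, pow_succ] at this ⊢
      linarith

lemma hasSum_len : HasSum (fun l : List (Fin 3) => (1 / 10 : ℝ) ^ l.length) (10 / 7) := by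
  rw [← List.equivSigmaTuple.symm.hasSum_iff]
  have h1 : ∀ N : ℕ, HasSum (fun _ : Fin N → Fin 3 => (1 / 10 : ℝ) ^ N) ((3 / 10 : ℝ) ^ N) := by
    intro N
    have := hasSum_fintype (fun _ : Fin N → Fin 3 => (1 / 10 : ℝ) ^ N)
    simp only [Finset.sum_const, Finset.card_univ, Fintype.card_pi, Fintype.card_fin,
      Finset.prod_const, nsmul_eq_mul, Nat.cast_pow, Nat.cast_ofNat] at this
    rwa [← mul_pow, show (3 : ℝ) * (1 / 10) = 3 / 10 by norm_num] at this
  have h2 : HasSum (fun N : ℕ => (3 / 10 : ℝ) ^ N) (10 / 7) := by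
    have := hasSum_geometric_of_lt_one (r := 3 / 10) (by norm_num) (by norm_num)
    rwa [show (1 - 3 / 10 : ℝ)⁻¹ = 10 / 7 by norm_num] at this
  have e : ((fun l : List (Fin 3) => (1 / 10 : ℝ) ^ l.length) ∘ List.equivSigmaTuple.symm) =
      fun x : (Σ N, Fin N → Fin 3) => (1 / 10 : ℝ) ^ x.1 := by
    funext x
    simp [List.equivSigmaTuple]
  rw [e]
  have hs : Summable fun x : (Σ N, Fin N → Fin 3) => (1 / 10 : ℝ) ^ x.1 := by
    rw [summable_sigma_of_nonneg (fun _ => by positivity)]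
    refine ⟨fun N => (h1 N).summable, ?_⟩
    simp only [fun N => (h1 N).tsum_eq]
    exact h2.summable
  exact HasSum.sigma_of_hasSum h2 h1 hs

/-- Reduced words. -/
def W : Type := {l : List (Fin 3) // List.IsChain (· ≠ ·) l}

lemma summable_W : Summable fun l : W => (1 / 10 : ℝ) ^ l.1.length :=
  hasSum_len.summable.subtype _

lemma tsum_W_le : ∑' l : W, (1 / 10 : ℝ) ^ l.1.length ≤ 10 / 7 := by
  rw [← hasSum_len.tsum_eq]
  exact hasSum_len.summable.tsum_subtype_le _ _ (fun _ => by positivity)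

/-- Right multiplication by a generator, on words. -/
def flipL (j : Fin 3) : List (Fin 3) → List (Fin 3)
  | [] => [j]
  | i :: l => if i = j then l else j :: i :: l

lemma flipL_chain (j : Fin 3) {l : List (Fin 3)} (hl : List.IsChain (· ≠ ·) l) :
    List.IsChain (· ≠ ·) (flipL j l) := by
  cases l with
  | nil => exact List.isChain_singleton _
  | cons i l =>
    rw [flipL]
    split_ifs with h
    · exact hl.tail
    · exact List.isChain_cons_cons.mpr ⟨Ne.symm h, hl⟩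

lemma flipL_flipL (j : Fin 3) {l : List (Fin 3)} (hl : List.IsChain (· ≠ ·) l) :
    flipL j (flipL j l) = l := by
  match l, hl with
  | [], _ => simp [flipL]
  | [i], _ =>
    by_cases h : i = j
    · simp [flipL, h]
    · simp [flipL, h]
  | i :: i' :: l, hl =>
    by_cases h : i = j
    · subst h
      have := (List.isChain_cons_cons.mp hl).1
      simp [flipL, this.symm]
    · simp [flipL, h]

/-- Right multiplication by a generator, as a permutation of the reduced words. -/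
def flipW (j : Fin 3) : Equiv.Perm W :=
  Function.Involutive.toPerm (fun l => ⟨flipL j l.1, flipL_chain j l.2⟩)
    fun l => Subtype.ext (flipL_flipL j l.2)

lemma flipW_flipW (j : Fin 3) (l : W) : flipW j (flipW j l) = l :=
  Subtype.ext (flipL_flipL j l.2)

lemma act_flipW (j : Fin 3) (l : W) {w : ℂ} (hw : w ≠ c j) :
    act (flipW j l).1 w = act l.1 (s j w) := by
  obtain ⟨l, hl⟩ := l
  change act (flipL j l) w = act l (s j w)
  cases l with
  | nil => rfl
  | cons i l =>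
    rw [flipL]
    split_ifs with h
    · subst h
      rw [act, s_s hw]
    · rfl

/-- Base point. -/
noncomputable def w0 : ℂ := ((L - 1 : ℝ) : ℂ)

/-- A second point. -/
noncomputable def w1 : ℂ := ((L - 2 : ℝ) : ℂ)

lemma n_real (t : ℝ) (ht : 0 < t) : n 0 ((L - t : ℝ) : ℂ) = t + 1 ∧
    1 ≤ n 1 ((L - t : ℝ) : ℂ) ∧ 1 ≤ n 2 ((L - t : ℝ) : ℂ) := by
  refine ⟨?_, ?_, ?_⟩
  · have : ((L - t : ℝ) : ℂ) - c 0 = ((-(t + 1) : ℝ) : ℂ) := by
      apply Complex.ext <;> simp [c]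
      ring
    rw [n, this, Complex.norm_real, Real.norm_eq_abs, abs_neg, abs_of_pos (by linarith)]
  · have := Complex.abs_im_le_norm (((L - t : ℝ) : ℂ) - c 1)
    simpa [c, n] using this
  · have := Complex.abs_im_le_norm (((L - t : ℝ) : ℂ) - c 2)
    simpa [c, n] using this

lemma δ_w0 : 0 < δ w0 := by
  rw [δ, w0, normSq_ofReal]
  norm_num [L]

lemma δ_w1 : 0 < δ w1 := by
  rw [δ, w1, normSq_ofReal]
  norm_num [L]

lemma w0_mem : w0 ∈ F0 := by
  obtain ⟨h1, h2, h3⟩ := n_real 1 one_pos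
  exact ⟨by rw [w0, h1]; norm_num, by rw [w0, r1]; linarith, by rw [w0, r2]; linarith⟩

lemma w1_mem : w1 ∈ F0 := by
  obtain ⟨h1, h2, h3⟩ := n_real 2 two_pos
  exact ⟨by rw [w1, h1]; norm_num, by rw [w1, r1]; linarith, by rw [w1, r2]; linarith⟩

lemma δ_le (w : ℂ) : δ w ≤ L ^ 2 := by
  have := normSq_nonneg w
  unfold δ
  linarith

lemma norm_sub_le_of_δ {x y : ℂ} (hx : 0 ≤ δ x) (hy : 0 ≤ δ y) : ‖x - y‖ ≤ 2 * L := by
  rw [δ_nonneg_iff] at hx hy
  linarith [norm_sub_le x y]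

/-- Points at bounded hyperbolic distance are at comparable distance from the boundary. -/
lemma norm_sub_le_δ {a b : ℂ} {T : ℝ} (hT : 0 ≤ T) (ha : 0 ≤ δ a) (hb : 0 ≤ δ b)
    (h : normSq (a - b) ≤ T * δ a * δ b) : ‖a - b‖ ≤ (2 * L * T + T + 1) * δ a := by
  have hL := L_pos
  have h1 : δ b ≤ δ a + 2 * L * ‖a - b‖ := by
    have h2 := norm_sub_norm_le a b
    have h3 := (δ_nonneg_iff a).mp ha
    have h4 := (δ_nonneg_iff b).mp hb
    have h5 := norm_nonneg a
    have h6 := norm_nonneg b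
    have h7 := norm_nonneg (a - b)
    rw [δ, δ, Complex.normSq_eq_norm_sq, Complex.normSq_eq_norm_sq]
    nlinarith
  rw [Complex.normSq_eq_norm_sq] at h
  set x := ‖a - b‖
  set d := δ a
  have h2 : x ^ 2 ≤ T * d * (d + 2 * L * x) := h.trans (by gcongr)
  by_contra hc
  push Not at hc
  have h3 : (T + 1) * d < x - 2 * L * T * d := by linarith
  have h4 : 0 ≤ 2 * L * T * d := by positivity
  have h5 : 0 ≤ (T + 1) * d := by positivity
  have h6 : ((T + 1) * d) * ((T + 1) * d) < x * (x - 2 * L * T * d) :=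
    mul_lt_mul'' (by linarith) h3 h5 h5
  nlinarith [mul_nonneg hT (sq_nonneg d), sq_nonneg d, sq_nonneg (T * d)]

/-- The terms of the series. -/
noncomputable def term (l : W) (w : ℂ) : ℂ := act l.1 w - act l.1 w0

lemma norm_term_le {ε : ℝ} (hε : 0 < ε) : ∃ C : ℝ, ∀ (l : W) (w : ℂ), ε < δ w →
    ‖term l w‖ ≤ C * (1 / 10) ^ l.1.length := by
  have h0 := δ_w0
  have hL := L_pos
  set T : ℝ := (2 * L) ^ 2 / (ε * δ w0) with hT
  have hT0 : 0 ≤ T := by positivity
  refine ⟨(2 * L * T + T + 1) * (10 ^ 8 * δ w0), fun l w hw => ?_⟩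
  have hw0 : 0 < δ w := hε.trans hw
  have ha : 0 ≤ δ (act l.1 w0) := by
    rw [δ_act _ h0.le]
    exact mul_nonneg (JJ_nonneg _ _) h0.le
  have hb : 0 ≤ δ (act l.1 w) := by
    rw [δ_act _ hw0.le]
    exact mul_nonneg (JJ_nonneg _ _) hw0.le
  have h1 : normSq (act l.1 w0 - act l.1 w) ≤ T * δ (act l.1 w0) * δ (act l.1 w) := by
    rw [normSq_act _ h0.le hw0.le, δ_act _ h0.le, δ_act _ hw0.le]
    have h2 : normSq (w0 - w) ≤ T * (δ w0 * δ w) := by
      have h3 := norm_sub_le_of_δ h0.le hw0.le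
      rw [Complex.normSq_eq_norm_sq]
      calc ‖w0 - w‖ ^ 2 ≤ (2 * L) ^ 2 := by gcongr
        _ = T * (δ w0 * ε) := by rw [hT]; field_simp
        _ ≤ T * (δ w0 * δ w) := by gcongr
    have h4 := JJ_nonneg l.1 w0
    have h5 := JJ_nonneg l.1 w
    calc JJ l.1 w0 * JJ l.1 w * normSq (w0 - w) ≤ JJ l.1 w0 * JJ l.1 w * (T * (δ w0 * δ w)) := by
          gcongr
      _ = _ := by ring
  have h6 := norm_sub_le_δ hT0 ha hb h1
  rw [term, norm_sub_rev]
  refine h6.trans ?_
  rw [δ_act _ h0.le]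
  have h7 := JJ_le_F0 l.2 w0_mem h0.le
  calc (2 * L * T + T + 1) * (JJ l.1 w0 * δ w0)
      ≤ (2 * L * T + T + 1) * ((10 ^ 8 * (1 / 10) ^ l.1.length) * δ w0) := by gcongr
    _ = _ := by ring

lemma summable_term {w : ℂ} (hw : 0 < δ w) : Summable fun l : W => term l w := by
  obtain ⟨C, hC⟩ := norm_term_le (half_pos hw)
  exact Summable.of_norm_bounded (summable_W.mul_left C) fun l => hC l w (half_lt_self hw)

/-- The invariant function. -/
noncomputable def f0 (w : ℂ) : ℂ := ∑' l : W, term l w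

lemma continuous_δ : Continuous δ := by
  unfold δ
  fun_prop

lemma differentiableAt_f0 {w : ℂ} (hw : 0 < δ w) : DifferentiableAt ℂ f0 w := by
  obtain ⟨C, hC⟩ := norm_term_le (half_pos hw)
  have hU : IsOpen {x | δ w / 2 < δ x} := isOpen_lt continuous_const continuous_δ
  have := differentiableOn_tsum_of_summable_norm (F := term) (summable_W.mul_left C)
    (fun l x hx => ((differentiableAt_act l.1 ((half_pos hw).trans hx).le).sub_const
      _).differentiableWithinAt) hU (fun l x hx => hC l x hx)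
  exact this.differentiableAt (hU.mem_nhds (half_lt_self hw))

lemma f0_s (j : Fin 3) {w : ℂ} (hw : 0 < δ w) : f0 (s j w) = f0 w := by
  have h0 := δ_w0
  have key : ∀ x : ℂ, 0 < δ x → f0 (s j x) = f0 x + f0 (s j w0) := by
    intro x hx
    have e : ∀ l : W, term l (s j x) = term (flipW j l) x + term l (s j w0) := by
      intro l
      simp only [term, act_flipW j l (ne_c_of_δ hx.le j), act_flipW j l (ne_c_of_δ h0.le j)]
      ring
    unfold f0
    have hs : Summable fun l : W => term (flipW j l) x :=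
      (flipW j).summable_iff.mpr (summable_term hx)
    rw [← (flipW j).tsum_eq (fun l => term l x), ← Summable.tsum_add hs
      (summable_term (δ_s_pos h0))]
    exact tsum_congr e
  have h1 := key (s j w0) (δ_s_pos h0)
  have h2 : f0 w0 = 0 := by simp [f0, term]
  rw [s_s (ne_c_of_δ h0.le j), h2] at h1
  have h3 : f0 (s j w0) = 0 := by linear_combination (-1 / 2 : ℂ) * h1
  rw [key w hw, h3, add_zero]

lemma norm_term_le_of {l : W} {w : ℂ} {B D : ℝ} (hw : 0 < δ w) (hB : 0 ≤ B) (hD : 0 ≤ D)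
    (h1 : JJ l.1 w ≤ B) (h2 : JJ l.1 w0 ≤ B) (h3 : ‖w - w0‖ ≤ D) : ‖term l w‖ ≤ B * D := by
  have h4 := normSq_act l.1 hw.le δ_w0.le
  rw [Complex.normSq_eq_norm_sq, Complex.normSq_eq_norm_sq] at h4
  have h5 := JJ_nonneg l.1 w0
  refine (sq_le_sq₀ (norm_nonneg _) (by positivity)).mp ?_
  rw [term, h4]
  calc JJ l.1 w * JJ l.1 w0 * ‖w - w0‖ ^ 2 ≤ B * B * D ^ 2 := by gcongr
    _ = _ := by ring

lemma f0_le_F0 {w : ℂ} (hw : 0 < δ w) (h : w ∈ F0) : ‖f0 w‖ ≤ 10 ^ 8 * (2 * L) * (10 / 7) := by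
  have hL := L_pos
  have h1 : ∀ l : W, ‖term l w‖ ≤ 10 ^ 8 * (2 * L) * (1 / 10) ^ l.1.length := by
    intro l
    have := norm_term_le_of hw (by positivity) (by positivity) (JJ_le_F0 l.2 h hw.le)
      (JJ_le_F0 l.2 w0_mem δ_w0.le) (norm_sub_le_of_δ hw.le δ_w0.le)
    linarith
  refine (tsum_of_norm_bounded (summable_W.mul_left _).hasSum h1).trans ?_
  rw [tsum_mul_left]
  gcongr
  exact tsum_W_le

lemma mem_F0_or (x : ℂ) : x ∈ F0 ∨ r 0 < n 0 x ∨ n 1 x < r 1 ∨ n 2 x < r 2 := by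
  by_contra h
  push Not at h
  exact h.1 h.2

lemma f0_bounded {w : ℂ} (hw : 0 < δ w) : ‖f0 w‖ ≤ 10 ^ 8 * (2 * L) * (10 / 7) := by
  have key : ∀ (N : ℕ) (j : Fin 3) (w : ℂ), w ∈ Dsc j → 0 < δ w →
      L ^ 2 * (1 / 10) ^ N < m j * δ w → ‖f0 w‖ ≤ 10 ^ 8 * (2 * L) * (10 / 7) := by
    intro N
    induction N with
    | zero =>
      intro j w _ hw h
      have := δ_le w
      have := m_le j
      nlinarith
    | succ N ih =>
      intro j w hj hw h
      have hc := ne_c_of_δ hw.le j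
      have hx : 0 < δ (s j w) := δ_s_pos hw
      have hcx := ne_c_of_δ hx.le j
      rw [← f0_s j hw]
      have hprod := n_mul_n_s hc
      have hn := n_pos hc
      have hn' := n_pos hcx
      have hr := r_pos j
      have main : ∀ i, i ≠ j → s j w ∈ Dsc i → ‖f0 (s j w)‖ ≤ 10 ^ 8 * (2 * L) * (10 / 7) := by
        intro i hij hi
        refine ih i _ hi hx ?_
        have h1 := (step_Dsc hij hi hx.le).2
        have h2 := δ_s hcx
        rw [s_s hc] at h2
        rw [h2, pow_succ (1 / 10 : ℝ)] at h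
        have h3 := mul_le_mul_of_nonneg_right h1 hx.le
        linarith
      rcases mem_F0_or (s j w) with h0 | h0 | h0 | h0
      · exact f0_le_F0 hx h0
      · refine main 0 ?_ h0.le
        rintro rfl
        rw [mem_Dsc0] at hj
        nlinarith
      · refine main 1 ?_ h0.le
        rintro rfl
        rw [mem_Dsc1] at hj
        nlinarith
      · refine main 2 ?_ h0.le
        rintro rfl
        rw [mem_Dsc2] at hj
        nlinarith
  have fin : ∀ j, w ∈ Dsc j → ‖f0 w‖ ≤ 10 ^ 8 * (2 * L) * (10 / 7) := by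
    intro j hj
    have hL := L_pos
    have hm := m_pos j
    obtain ⟨N, hN⟩ := exists_pow_lt_of_lt_one (show 0 < m j * δ w / L ^ 2 by positivity)
      (show (1 / 10 : ℝ) < 1 by norm_num)
    refine key N j w hj hw ?_
    rw [lt_div_iff₀ (by positivity)] at hN
    linarith
  rcases mem_F0_or w with h0 | h0 | h0 | h0
  · exact f0_le_F0 hw h0
  · exact fin 0 h0.le
  · exact fin 1 h0.le
  · exact fin 2 h0.le

lemma f0_w0 : f0 w0 = 0 := by simp [f0, term]

lemma f0_w1 : f0 w1 ≠ 0 := by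
  classical
  intro h
  let l0 : W := ⟨[0], List.isChain_singleton _⟩
  have hd : ‖w1 - w0‖ = 1 := by
    have : w1 - w0 = -1 := by
      simp only [w1, w0]
      push_cast
      ring
    rw [this, norm_neg, norm_one]
  obtain ⟨a1, a2, a3⟩ := n_real 1 one_pos
  obtain ⟨b1, b2, b3⟩ := n_real 2 two_pos
  have h1 : ∀ l : W, ‖if l = l0 then 0 else term l w1‖ ≤ 1100 * (1 / 10) ^ l.1.length := by
    intro l
    split_ifs with hl
    · rw [norm_zero]
      positivity
    · have hl' : l.1 ≠ [0] := fun h' => hl (Subtype.ext h')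
      have := norm_term_le_of δ_w1 (by positivity) zero_le_one
        (JJ_le_far l.2 hl' w1_mem δ_w1.le b2 b3) (JJ_le_far l.2 hl' w0_mem δ_w0.le a2 a3) hd.le
      linarith
  have h2 := tsum_of_norm_bounded (summable_W.mul_left _).hasSum h1
  rw [tsum_mul_left] at h2
  have h3 := tsum_W_le
  rw [f0, (summable_term δ_w1).tsum_eq_add_tsum_ite l0] at h
  have h4 : ‖term l0 w1‖ ≤ 1100 * (10 / 7) := by
    rw [eq_neg_of_add_eq_zero_left h, norm_neg]
    linarith
  have h5 : ‖term l0 w1‖ ^ 2 = (10 ^ 6 / 6) ^ 2 := by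
    rw [← Complex.normSq_eq_norm_sq, term, normSq_act _ δ_w1.le δ_w0.le,
      Complex.normSq_eq_norm_sq, hd]
    simp only [l0, JJ, J_eq, w0, w1, a1, b1, r0]
    norm_num
  have h6 := norm_nonneg (term l0 w1)
  nlinarith

end Pool.Agent.MP_6b7ec3_an

end MrgPart1

-- ======== part 2: formerly Pool.Agent.MP_6b7ec3_an.Psi
section MrgPart2

/-!
A smooth convex function `Ψ` with `Ψ t = 0` for `t ≤ -1` and `Ψ t - Ψ (-t) = t`
(so `y + Ψ (x - y)` is a symmetric regularised maximum), and the function `Φ t = t + Ψ (1 - t) / 2`.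
-/

set_option autoImplicit false

open Set Topology Filter
open scoped ContDiff

namespace Pool.Agent.MP_6b7ec3_an

/-- Derivative of `Ψ`. -/
noncomputable def S (t : ℝ) : ℝ := Real.smoothTransition ((t + 1) / 2)

lemma contDiff_S : ContDiff ℝ ∞ S :=
  Real.smoothTransition.contDiff.comp (by fun_prop)

lemma S_nonneg (t : ℝ) : 0 ≤ S t := Real.smoothTransition.nonneg _

lemma S_le_one (t : ℝ) : S t ≤ 1 := Real.smoothTransition.le_one _

lemma S_mono : Monotone S := fun a b h =>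
  Real.smoothTransition.monotone (by linarith)

lemma S_add (t : ℝ) : S t + S (-t) = 1 := by
  have h := Real.smoothTransition.pos_denom ((t + 1) / 2)
  have e : (-t + 1) / 2 = 1 - (t + 1) / 2 := by ring
  unfold S Real.smoothTransition
  rw [e, sub_sub_cancel, add_comm (expNegInvGlue (1 - (t + 1) / 2)), ← add_div, div_self h.ne']

/-- The regularised positive part. -/
noncomputable def Ψ (t : ℝ) : ℝ := ∫ u in (-1)..t, S u

lemma hasDerivAt_Ψ (t : ℝ) : HasDerivAt Ψ (S t) t :=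
  (contDiff_S.continuous.integral_hasStrictDerivAt (-1) t).hasDerivAt

lemma deriv_Ψ : deriv Ψ = S := funext fun t => (hasDerivAt_Ψ t).deriv

lemma contDiff_Ψ : ContDiff ℝ ∞ Ψ := by
  rw [contDiff_infty_iff_deriv, deriv_Ψ]
  exact ⟨fun t => (hasDerivAt_Ψ t).differentiableAt, contDiff_S⟩

lemma Ψ_zero {t : ℝ} (ht : t ≤ -1) : Ψ t = 0 := by
  unfold Ψ
  rw [intervalIntegral.integral_congr (g := fun _ => 0), intervalIntegral.integral_zero]
  intro u hu
  rw [uIcc_of_ge ht] at hu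
  exact Real.smoothTransition.zero_of_nonpos (by linarith [hu.2])

lemma Ψ_mono : Monotone Ψ :=
  monotone_of_deriv_nonneg (fun t => (hasDerivAt_Ψ t).differentiableAt) fun t => by
    rw [deriv_Ψ]
    exact S_nonneg t

lemma Ψ_nonneg (t : ℝ) : 0 ≤ Ψ t := by
  rcases le_total t (-1) with h | h
  · exact (Ψ_zero h).ge
  · exact (Ψ_zero le_rfl).ge.trans (Ψ_mono h)

lemma Ψ_sub (t : ℝ) : Ψ t - Ψ (-t) = t := by
  have h : ∀ x, HasDerivAt (fun x => Ψ x - Ψ (-x) - x) 0 x := by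
    intro x
    have h1 := ((hasDerivAt_Ψ x).sub ((hasDerivAt_Ψ (-x)).comp x (hasDerivAt_neg x))).sub
      (hasDerivAt_id x)
    exact h1.congr_deriv (by linarith [S_add x])
  have h2 := is_const_of_deriv_eq_zero (fun x => (h x).differentiableAt) (fun x => (h x).deriv) t 0
  simp only [neg_zero, sub_self] at h2
  linarith

lemma Ψ_one : Ψ 1 = 1 := by
  have := Ψ_sub 1
  rwa [Ψ_zero le_rfl, sub_zero] at this

lemma deriv_S_nonneg (t : ℝ) : 0 ≤ deriv S t := S_mono.deriv_nonneg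

/-- The regularisation of the identity near zero. -/
noncomputable def Φ (t : ℝ) : ℝ := t + Ψ (1 - t) / 2

lemma contDiff_Φ : ContDiff ℝ ∞ Φ :=
  contDiff_id.add ((contDiff_Ψ.comp (by fun_prop)).div_const 2)

lemma hasDerivAt_Φ (t : ℝ) : HasDerivAt Φ (1 - S (1 - t) / 2) t := by
  have := (hasDerivAt_id t).add
    (((hasDerivAt_Ψ (1 - t)).comp t ((hasDerivAt_id t).const_sub 1)).div_const 2)
  exact this.congr_deriv (by ring)

lemma deriv_Φ : deriv Φ = fun t => 1 - S (1 - t) / 2 := funext fun t => (hasDerivAt_Φ t).deriv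

lemma deriv_deriv_Φ (t : ℝ) : deriv (deriv Φ) t = deriv S (1 - t) / 2 := by
  rw [deriv_Φ]
  have h : HasDerivAt S (deriv S (1 - t)) (1 - t) :=
    (contDiff_S.differentiable (by simp) _).hasDerivAt
  have := ((h.comp t ((hasDerivAt_id t).const_sub 1)).div_const 2).const_sub 1
  exact (this.congr_deriv (by ring)).deriv

lemma Φ_of_two_le {t : ℝ} (ht : 2 ≤ t) : Φ t = t := by
  rw [Φ, Ψ_zero (by linarith)]
  ring

lemma Φ_pos {t : ℝ} (ht : 0 ≤ t) : 0 < Φ t := by
  rcases ht.eq_or_lt with h | h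
  · rw [← h, Φ, sub_zero, Ψ_one]
    norm_num
  · have := Ψ_nonneg (1 - t)
    unfold Φ
    linarith

/-- The key inequality: if `log t` is subharmonic and `t` strictly subharmonic in the form below,
then `log (Φ t)` is strictly subharmonic. -/
lemma Φ_key {t A B : ℝ} (ht : 0 ≤ t) (hB : 0 ≤ B) (h0 : t = 0 → B = 0 ∧ 0 < A)
    (h1 : 0 < t → B < t * A) :
    0 < Φ t * (deriv Φ t * A + deriv (deriv Φ) t * B) - (deriv Φ t) ^ 2 * B := by
  have hΦ := Φ_pos ht
  have h2 : 0 ≤ deriv (deriv Φ) t := by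
    rw [deriv_deriv_Φ]
    linarith [deriv_S_nonneg (1 - t)]
  have h3 : 0 < deriv Φ t ∧ deriv Φ t ≤ 1 := by
    rw [deriv_Φ]
    constructor <;> linarith [S_nonneg (1 - t), S_le_one (1 - t)]
  have h4 : t ≤ Φ t := by
    have := Ψ_nonneg (1 - t)
    unfold Φ
    linarith
  set a := deriv Φ t
  set e := deriv (deriv Φ) t
  have h5 : 0 ≤ Φ t * (e * B) := by positivity
  rcases ht.eq_or_lt with h | h
  · obtain ⟨h6, h7⟩ := h0 h.symm
    rw [h6]
    have := h3.1
    simp only [mul_zero, add_zero, sub_zero]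
    positivity
  · have h6 := h1 h
    have hA : 0 < A := by
      by_contra hc
      push Not at hc
      nlinarith
    have h7 : a * B < Φ t * A := by nlinarith [h3.1, h3.2]
    nlinarith [h3.1]

end Pool.Agent.MP_6b7ec3_an

end MrgPart2

-- ======== part 3: formerly Pool.Agent.MP_6b7ec3_an.Calc
section MrgPart3

/-!
Second-order calculus for the Levi form: `Lap u p v` is four times the Levi form of `u` at `p`
on `v`, and `Grd u p v` is four times the squared modulus of the complex gradient on `v`.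
-/

set_option autoImplicit false
set_option maxSynthPendingDepth 3

open Set Topology Filter Complex

namespace Pool.Agent.MP_6b7ec3_an

section Real

variable {E : Type} [NormedAddCommGroup E] [NormedSpace ℝ E]

/-- Second derivative on the diagonal. -/
noncomputable def D2 (u : E → ℝ) (p v : E) : ℝ := fderiv ℝ (fderiv ℝ u) p v v

lemma diff_fderiv {F : Type} [NormedAddCommGroup F] [NormedSpace ℝ F] {u : E → F} {p : E}
    (hu : ContDiffAt ℝ 2 u p) : DifferentiableAt ℝ (fderiv ℝ u) p :=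
  (hu.fderiv_right (m := 1) (by norm_num)).differentiableAt (by norm_num)

lemma ev_diff {F : Type} [NormedAddCommGroup F] [NormedSpace ℝ F] {u : E → F} {p : E}
    (hu : ContDiffAt ℝ 2 u p) : ∀ᶠ x in 𝓝 p, DifferentiableAt ℝ u x := by
  filter_upwards [hu.eventually (by simp)] with x hx using hx.differentiableAt (by norm_num)

lemma hasFDerivAt_dir {u : E → ℝ} {p : E} (hu : ContDiffAt ℝ 2 u p) (v : E) :
    HasFDerivAt (fun x => fderiv ℝ u x v)
      ((ContinuousLinearMap.apply ℝ ℝ v).comp (fderiv ℝ (fderiv ℝ u) p)) p :=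
  (ContinuousLinearMap.apply ℝ ℝ v).hasFDerivAt.comp p (diff_fderiv hu).hasFDerivAt

lemma D2_eq {u : E → ℝ} {p : E} (hu : ContDiffAt ℝ 2 u p) (v : E) :
    D2 u p v = fderiv ℝ (fun x => fderiv ℝ u x v) p v := by
  rw [(hasFDerivAt_dir hu v).fderiv]
  rfl

/-- Compute `D2` from a local formula for the directional derivative. -/
lemma D2_of {u : E → ℝ} {p : E} (hu : ContDiffAt ℝ 2 u p) (v : E) {φ : E → ℝ} {φ' : E →L[ℝ] ℝ}
    (h1 : ∀ᶠ x in 𝓝 p, fderiv ℝ u x v = φ x) (h2 : HasFDerivAt φ φ' p) : D2 u p v = φ' v := by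
  rw [D2_eq hu, Filter.EventuallyEq.fderiv_eq h1, h2.fderiv]

lemma D2_congr {u u' : E → ℝ} {p : E} (h : u =ᶠ[𝓝 p] u') (v : E) : D2 u p v = D2 u' p v := by
  unfold D2
  rw [h.fderiv.fderiv_eq]

lemma D2_const (c : ℝ) (p v : E) : D2 (fun _ => c) p v = 0 := by
  simp [D2]

lemma D2_add {u u' : E → ℝ} {p : E} (hu : ContDiffAt ℝ 2 u p) (hu' : ContDiffAt ℝ 2 u' p)
    (v : E) : D2 (fun x => u x + u' x) p v = D2 u p v + D2 u' p v := by
  rw [D2_of (hu.add hu') v (φ := fun x => fderiv ℝ u x v + fderiv ℝ u' x v) ?_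
    ((hasFDerivAt_dir hu v).add (hasFDerivAt_dir hu' v))]
  · rfl
  · filter_upwards [ev_diff hu, ev_diff hu'] with x h1 h2
    rw [fderiv_fun_add h1 h2]
    rfl

lemma D2_mul {u u' : E → ℝ} {p : E} (hu : ContDiffAt ℝ 2 u p) (hu' : ContDiffAt ℝ 2 u' p)
    (v : E) : D2 (fun x => u x * u' x) p v =
      u p * D2 u' p v + u' p * D2 u p v + 2 * (fderiv ℝ u p v * fderiv ℝ u' p v) := by
  have d1 := (hu.differentiableAt (by norm_num)).hasFDerivAt
  have d2 := (hu'.differentiableAt (by norm_num)).hasFDerivAt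
  rw [D2_of (hu.mul hu') v (φ := fun x => u x * fderiv ℝ u' x v + u' x * fderiv ℝ u x v) ?_
    ((d1.mul (hasFDerivAt_dir hu' v)).add (d2.mul (hasFDerivAt_dir hu v)))]
  · simp [D2]
    ring
  · filter_upwards [ev_diff hu, ev_diff hu'] with x h1 h2
    rw [fderiv_fun_mul h1 h2]
    simp

lemma fderiv_comp_real {g : ℝ → ℝ} {u : E → ℝ} {p : E} (hg : DifferentiableAt ℝ g (u p))
    (hu : DifferentiableAt ℝ u p) (v : E) :
    fderiv ℝ (fun x => g (u x)) p v = deriv g (u p) * fderiv ℝ u p v := by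
  have h : HasFDerivAt (fun x => g (u x)) _ p := hg.hasDerivAt.comp_hasFDerivAt p hu.hasFDerivAt
  rw [h.fderiv]
  simp

lemma D2_comp {g : ℝ → ℝ} {u : E → ℝ} {p : E} (hg : ContDiffAt ℝ 2 g (u p))
    (hu : ContDiffAt ℝ 2 u p) (v : E) :
    D2 (fun x => g (u x)) p v =
      deriv g (u p) * D2 u p v + deriv (deriv g) (u p) * (fderiv ℝ u p v) ^ 2 := by
  have d1 := (hu.differentiableAt (by norm_num)).hasFDerivAt
  have hg' : DifferentiableAt ℝ (deriv g) (u p) :=
    (hasFDerivAt_dir hg 1).differentiableAt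
  have d2 := hg'.hasDerivAt.comp_hasFDerivAt p d1
  rw [D2_of (u := fun x => g (u x)) (hg.comp p hu) v (φ := fun x => deriv g (u x) * fderiv ℝ u x v) ?_
    (d2.mul (hasFDerivAt_dir hu v))]
  · simp [D2]
    ring
  · filter_upwards [ev_diff hu, hu.continuousAt.eventually (ev_diff hg)] with x h1 h2
    exact fderiv_comp_real h2 h1 v

lemma D2_clm {F : Type} [NormedAddCommGroup F] [NormedSpace ℝ F] {u : F → ℝ} (A : E →L[ℝ] F)
    (b : F) {p : E} (hu : ContDiffAt ℝ 2 u (A p + b)) (v : E) :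
    D2 (fun x => u (A x + b)) p v = D2 u (A p + b) (A v) := by
  have hA : ∀ x, HasFDerivAt (fun x => A x + b) A x := fun x => A.hasFDerivAt.add_const b
  have hc : ContDiffAt ℝ 2 (fun x => A x + b) p := A.contDiff.contDiffAt.add contDiffAt_const
  rw [D2_of (u := fun x => u (A x + b)) (ContDiffAt.comp (g := u) p hu hc) v
    (φ := fun x => fderiv ℝ u (A x + b) (A v)) ?_
    (HasFDerivAt.comp (g := fun y => fderiv ℝ u y (A v)) p (hasFDerivAt_dir hu (A v)) (hA p))]
  · rfl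
  · filter_upwards [hc.continuousAt.eventually (ev_diff hu)] with x hx
    have h : HasFDerivAt (fun x => u (A x + b)) _ x :=
      HasFDerivAt.comp (g := u) x hx.hasFDerivAt (hA x)
    rw [h.fderiv]
    rfl

end Real

section Cplx

variable {E : Type} [NormedAddCommGroup E] [NormedSpace ℝ E] [NormedSpace ℂ E]

/-- Four times the Levi form. -/
noncomputable def Lap (u : E → ℝ) (p v : E) : ℝ := D2 u p v + D2 u p (I • v)

/-- The real inner product of gradients along the complex line spanned by `v`. -/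
noncomputable def Crs (u u' : E → ℝ) (p v : E) : ℝ :=
  fderiv ℝ u p v * fderiv ℝ u' p v + fderiv ℝ u p (I • v) * fderiv ℝ u' p (I • v)

/-- The squared gradient along the complex line spanned by `v`. -/
noncomputable def Grd (u : E → ℝ) (p v : E) : ℝ :=
  (fderiv ℝ u p v) ^ 2 + (fderiv ℝ u p (I • v)) ^ 2

lemma Grd_nonneg (u : E → ℝ) (p v : E) : 0 ≤ Grd u p v := by
  unfold Grd
  positivity

lemma Lap_congr {u u' : E → ℝ} {p : E} (h : u =ᶠ[𝓝 p] u') (v : E) : Lap u p v = Lap u' p v := by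
  unfold Lap
  rw [D2_congr h, D2_congr h]

lemma Grd_congr {u u' : E → ℝ} {p : E} (h : u =ᶠ[𝓝 p] u') (v : E) : Grd u p v = Grd u' p v := by
  unfold Grd
  rw [h.fderiv_eq]

lemma Lap_const (c : ℝ) (p v : E) : Lap (fun _ => c) p v = 0 := by
  simp [Lap, D2_const]

lemma Lap_add {u u' : E → ℝ} {p : E} (hu : ContDiffAt ℝ 2 u p) (hu' : ContDiffAt ℝ 2 u' p)
    (v : E) : Lap (fun x => u x + u' x) p v = Lap u p v + Lap u' p v := by
  unfold Lap
  rw [D2_add hu hu', D2_add hu hu']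
  ring

lemma Lap_mul {u u' : E → ℝ} {p : E} (hu : ContDiffAt ℝ 2 u p) (hu' : ContDiffAt ℝ 2 u' p)
    (v : E) : Lap (fun x => u x * u' x) p v =
      u p * Lap u' p v + u' p * Lap u p v + 2 * Crs u u' p v := by
  unfold Lap Crs
  rw [D2_mul hu hu', D2_mul hu hu']
  ring

lemma Lap_const_mul (c : ℝ) {u : E → ℝ} {p : E} (hu : ContDiffAt ℝ 2 u p) (v : E) :
    Lap (fun x => c * u x) p v = c * Lap u p v := by
  rw [Lap_mul contDiffAt_const hu, Lap_const]
  simp [Crs]

lemma Lap_sub {u u' : E → ℝ} {p : E} (hu : ContDiffAt ℝ 2 u p) (hu' : ContDiffAt ℝ 2 u' p)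
    (v : E) : Lap (fun x => u x - u' x) p v = Lap u p v - Lap u' p v := by
  have h : (fun x => u x - u' x) = fun x => u x + (-1) * u' x := by
    funext x
    ring
  rw [h, Lap_add hu (contDiffAt_const.mul hu'), Lap_const_mul _ hu']
  ring

lemma Lap_comp {g : ℝ → ℝ} {u : E → ℝ} {p : E} (hg : ContDiffAt ℝ 2 g (u p))
    (hu : ContDiffAt ℝ 2 u p) (v : E) :
    Lap (fun x => g (u x)) p v =
      deriv g (u p) * Lap u p v + deriv (deriv g) (u p) * Grd u p v := by
  unfold Lap Grd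
  rw [D2_comp hg hu, D2_comp hg hu]
  ring

lemma Grd_comp {g : ℝ → ℝ} {u : E → ℝ} {p : E} (hg : DifferentiableAt ℝ g (u p))
    (hu : DifferentiableAt ℝ u p) (v : E) :
    Grd (fun x => g (u x)) p v = (deriv g (u p)) ^ 2 * Grd u p v := by
  unfold Grd
  rw [fderiv_comp_real hg hu, fderiv_comp_real hg hu]
  ring

lemma Lap_log {u : E → ℝ} {p : E} (hu : ContDiffAt ℝ 2 u p) (h0 : u p ≠ 0) (v : E) :
    Lap (fun x => Real.log (u x)) p v = (u p * Lap u p v - Grd u p v) / (u p) ^ 2 := by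
  rw [Lap_comp (g := Real.log) (Real.contDiffAt_log.mpr h0) hu, Real.deriv_log']
  simp only [deriv_inv']
  field_simp
  ring

lemma Lap_exp {u : E → ℝ} {p : E} (hu : ContDiffAt ℝ 2 u p) (v : E) :
    Lap (fun x => Real.exp (u x)) p v = Real.exp (u p) * (Lap u p v + Grd u p v) := by
  rw [Lap_comp (g := Real.exp) Real.contDiff_exp.contDiffAt hu, Real.deriv_exp, Real.deriv_exp]
  ring

variable [IsScalarTower ℝ ℂ E]

omit [NormedSpace ℂ E] [IsScalarTower ℝ ℂ E] in
lemma contDiffAt_normSq {h : E → ℂ} {p : E} {n : WithTop ℕ∞} (hh : ContDiffAt ℝ n h p) :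
    ContDiffAt ℝ n (fun x => normSq (h x)) p := by
  simp only [normSq_apply]
  have h1 : ContDiffAt ℝ n (fun x => (h x).re) p := reCLM.contDiff.contDiffAt.comp p hh
  have h2 : ContDiffAt ℝ n (fun x => (h x).im) p := imCLM.contDiff.contDiffAt.comp p hh
  exact (h1.mul h1).add (h2.mul h2)

lemma fderiv_normSq {h : E → ℂ} {p : E} (hh : DifferentiableAt ℂ h p) (v : E) :
    fderiv ℝ (fun x => normSq (h x)) p v =
      2 * ((h p).re * (fderiv ℂ h p v).re + (h p).im * (fderiv ℂ h p v).im) := by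
  have d := hh.hasFDerivAt.restrictScalars ℝ
  have h1 := reCLM.hasFDerivAt.comp p d
  have h2 := imCLM.hasFDerivAt.comp p d
  have h3 : HasFDerivAt (fun x => (h x).re * (h x).re + (h x).im * (h x).im) _ p :=
    (h1.mul h1).add (h2.mul h2)
  simp only [normSq_apply]
  rw [h3.fderiv]
  simp
  ring

lemma D2_normSq {h : E → ℂ} {p : E} (hh : ContDiffAt ℂ 2 h p) (v : E) :
    D2 (fun x => normSq (h x)) p v = 2 * normSq (fderiv ℂ h p v) +
      2 * ((h p).re * (fderiv ℂ (fderiv ℂ h) p v v).re +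
        (h p).im * (fderiv ℂ (fderiv ℂ h) p v v).im) := by
  have d := (hh.differentiableAt (by norm_num)).hasFDerivAt.restrictScalars ℝ
  have h1 := reCLM.hasFDerivAt.comp p d
  have h2 := imCLM.hasFDerivAt.comp p d
  have e0 : DifferentiableAt ℂ (fderiv ℂ h) p :=
    (hh.fderiv_right (m := 1) (by norm_num)).differentiableAt (by norm_num)
  have e := ((ContinuousLinearMap.apply ℂ ℂ v).hasFDerivAt.comp p
    e0.hasFDerivAt).restrictScalars ℝ
  have e1 := reCLM.hasFDerivAt.comp p e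
  have e2 := imCLM.hasFDerivAt.comp p e
  rw [D2_of (contDiffAt_normSq (hh.restrict_scalars ℝ)) v
    (φ := fun x => 2 * ((h x).re * (fderiv ℂ h x v).re + (h x).im * (fderiv ℂ h x v).im)) ?_
    (((h1.mul e1).add (h2.mul e2)).const_mul 2)]
  · simp [normSq_apply]
    ring
  · filter_upwards [hh.eventually (by simp)] with x hx
    exact fderiv_normSq (hx.differentiableAt (by norm_num)) v

lemma Lap_normSq {h : E → ℂ} {p : E} (hh : ContDiffAt ℂ 2 h p) (v : E) :
    Lap (fun x => normSq (h x)) p v = 4 * normSq (fderiv ℂ h p v) := by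
  unfold Lap
  rw [D2_normSq hh, D2_normSq hh]
  simp only [map_smul, smul_apply, smul_eq_mul, map_mul, normSq_I, mul_re,
    mul_im, I_re, I_im]
  ring

lemma Grd_normSq {h : E → ℂ} {p : E} (hh : DifferentiableAt ℂ h p) (v : E) :
    Grd (fun x => normSq (h x)) p v = 4 * normSq (h p) * normSq (fderiv ℂ h p v) := by
  unfold Grd
  rw [fderiv_normSq hh, fderiv_normSq hh]
  simp only [map_smul, smul_eq_mul, mul_re, mul_im, I_re, I_im, normSq_apply]
  ring

lemma Lap_log_normSq {h : E → ℂ} {p : E} (hh : ContDiffAt ℂ 2 h p) (h0 : h p ≠ 0) (v : E) :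
    Lap (fun x => Real.log (normSq (h x))) p v = 0 := by
  rw [Lap_log (contDiffAt_normSq (hh.restrict_scalars ℝ)) (by simpa using h0), Lap_normSq hh,
    Grd_normSq (hh.differentiableAt (by norm_num))]
  ring

end Cplx

end Pool.Agent.MP_6b7ec3_an

end MrgPart3

-- marker of a merged file
example : 731051 + 880528 = 731051 + 880528 := rfl
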