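import Mathlib.CategoryTheory.Category.Init
import Mathlib.Topology.MetricSpace.Polish
import Mathlib.Analysis.Complex.Basic
import Mathlib.Geometry.Manifold.IsManifold.Basic
import Mathlib.Combinatorics.SimpleGraph.Basic
import Mathlib.Topology.Connected.Separation
import Mathlib.Topology.Separation.Lemmas
import Mathlib.Analysis.Complex.ExponentialBounds
import Pool.Agent.MP_6b7ec3_an.Calc
import Mathlib.RingTheory.PiTensorProduct
import Mathlib.Analysis.Complex.Convex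

-- ======== part 0: formerly Pool.Agent.MP_6b7ec3_an.Glue
section MrgPart0

/-!
Gluing two copies of an open subset `Y` of a complex normed space along an analytic involution
`σ` of an open subset `A ⊆ Y` with closed graph gives a Hausdorff complex manifold.
-/

set_option autoImplicit false

open Set Topology Filter
open scoped Manifold ContDiff

namespace Pool.Agent.MP_6b7ec3_an

/-- Data for doubling an open set along an analytic involution. -/
structure GlueData (E : Type) [NormedAddCommGroup E] [NormedSpace ℂ E] where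
  Y : Set E
  A : Set E
  σ : E → E
  hY : IsOpen Y
  hA : IsOpen A
  hAY : A ⊆ Y
  maps : MapsTo σ A A
  inv : ∀ x ∈ A, σ (σ x) = x
  an : ContDiffOn ℂ ω σ A
  closed : ∀ x ∈ Y, ∀ y ∈ Y, (x, y) ∈ closure {q : E × E | q.1 ∈ A ∧ q.2 = σ q.1} →
    x ∈ A ∧ y = σ x
  base : E
  base_mem : base ∈ Y

namespace GlueData

variable {E : Type} [NormedAddCommGroup E] [NormedSpace ℂ E] (G : GlueData E)

/-- The gluing relation. -/
def rel (p q : Bool × G.Y) : Prop :=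
  p = q ∨ (p.1 ≠ q.1 ∧ p.2.1 ∈ G.A ∧ q.2.1 = G.σ p.2.1)

/-- The gluing relation as a setoid. -/
def setoid : Setoid (Bool × G.Y) where
  r := G.rel
  iseqv :=
    { refl := fun _ => Or.inl rfl
      symm := by
        rintro p q (h | ⟨h1, h2, h3⟩)
        · exact Or.inl h.symm
        · exact Or.inr ⟨h1.symm, h3 ▸ G.maps h2, by rw [h3, G.inv _ h2]⟩
      trans := by
        rintro p q r (h | ⟨h1, h2, h3⟩) (h' | ⟨h1', h2', h3'⟩)
        · exact Or.inl (h.trans h')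
        · subst h; exact Or.inr ⟨h1', h2', h3'⟩
        · subst h'; exact Or.inr ⟨h1, h2, h3⟩
        · left
          apply Prod.ext
          · revert h1 h1'
            cases p.1 <;> cases q.1 <;> cases r.1 <;> simp
          · apply Subtype.ext
            rw [h3', h3, G.inv _ h2] }

/-- The glued space. -/
def X : Type := Quotient G.setoid

instance : TopologicalSpace G.X := inferInstanceAs (TopologicalSpace (Quotient G.setoid))

/-- The quotient map. -/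
def proj (p : Bool × G.Y) : G.X := Quotient.mk G.setoid p

lemma mk_eq_iff (p q : Bool × G.Y) : G.proj p = G.proj q ↔ G.rel p q :=
  Quotient.eq (r := G.setoid)

lemma continuous_mk : Continuous G.proj := continuous_quotient_mk' (s := G.setoid)

lemma mk_surjective : Function.Surjective G.proj := Quotient.mk_surjective

lemma isQuotientMap_mk : IsQuotientMap G.proj := isQuotientMap_quotient_mk' (s := G.setoid)

lemma contOn : ContinuousOn G.σ G.A := G.an.continuousOn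

lemma isOpenMap_mk : IsOpenMap G.proj := by
  intro U hU
  rw [← G.isQuotientMap_mk.isOpen_preimage]
  rw [isOpen_iff_mem_nhds]
  rintro q ⟨p, hp, hpq⟩
  rcases (G.mk_eq_iff p q).mp hpq with h | ⟨h1, h2, h3⟩
  · subst h
    filter_upwards [hU.mem_nhds hp] with r hr using ⟨r, hr, rfl⟩
  · have hqA : q.2.1 ∈ G.A := h3 ▸ G.maps h2
    have hσq : G.σ q.2.1 = p.2.1 := by rw [h3, G.inv _ h2]
    -- the map `r ↦ (p.1, σ r.2)` is continuous at `q`
    classical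
    let τ : Bool × G.Y → Bool × G.Y := fun r =>
      (p.1, if h : r.2.1 ∈ G.A then ⟨G.σ r.2.1, G.hAY (G.maps h)⟩ else p.2)
    have hval : Continuous fun r : Bool × G.Y => r.2.1 := by fun_prop
    have hAn : ∀ᶠ r in 𝓝 q, r.2.1 ∈ G.A := hval.continuousAt.preimage_mem_nhds (G.hA.mem_nhds hqA)
    have hτq : τ q = p := by
      apply Prod.ext
      · rfl
      · apply Subtype.ext
        simp only [τ, hqA, dif_pos]
        exact hσq
    have hτ : ContinuousAt τ q := by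
      apply ContinuousAt.prodMk continuousAt_const
      rw [Topology.IsInducing.subtypeVal.continuousAt_iff]
      have h1 : ContinuousAt (fun r : Bool × G.Y => G.σ r.2.1) q :=
        ContinuousAt.comp (f := fun r : Bool × G.Y => r.2.1)
          (G.contOn.continuousAt (G.hA.mem_nhds hqA)) hval.continuousAt
      refine h1.congr ?_
      filter_upwards [hAn] with r hr
      simp [hr]
    have hb : ∀ᶠ r in 𝓝 q, r.1 = q.1 := by
      have : ContinuousAt (fun r : Bool × G.Y => r.1) q := continuous_fst.continuousAt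
      exact this.preimage_mem_nhds ((isOpen_discrete {q.1}).mem_nhds rfl)
    have hUn : ∀ᶠ r in 𝓝 q, τ r ∈ U := hτ.preimage_mem_nhds (by rw [hτq]; exact hU.mem_nhds hp)
    filter_upwards [hAn, hb, hUn] with r hr hrb hrU
    refine ⟨τ r, hrU, ?_⟩
    symm
    rw [G.mk_eq_iff]
    right
    refine ⟨?_, hr, ?_⟩
    · rw [hrb]; exact fun h => h1 h.symm
    · simp [τ, hr]

lemma isOpenQuotientMap_mk : IsOpenQuotientMap G.proj :=
  ⟨G.mk_surjective, G.continuous_mk, G.isOpenMap_mk⟩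

instance : T2Space G.X := by
  rw [t2Space_iff_of_isOpenQuotientMap G.isOpenQuotientMap_mk]
  have h : {q : (Bool × G.Y) × (Bool × G.Y) | G.proj q.1 = G.proj q.2} =
      {q | q.1 = q.2} ∪ ({q | q.1.1 ≠ q.2.1} ∩
        (fun q : (Bool × G.Y) × (Bool × G.Y) => (q.1.2.1, q.2.2.1)) ⁻¹'
          closure {q : E × E | q.1 ∈ G.A ∧ q.2 = G.σ q.1}) := by
    ext q
    simp only [mem_ofPred_eq, G.mk_eq_iff, rel, mem_union, mem_inter_iff, mem_preimage]
    constructor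
    · rintro (h | ⟨h1, h2, h3⟩)
      · exact Or.inl h
      · exact Or.inr ⟨h1, subset_closure ⟨h2, h3⟩⟩
    · rintro (h | ⟨h1, h2⟩)
      · exact Or.inl h
      · exact Or.inr ⟨h1, G.closed _ q.1.2.2 _ q.2.2.2 h2⟩
  rw [h]
  refine IsClosed.union (isClosed_eq continuous_fst continuous_snd) (IsClosed.inter ?_ ?_)
  · have : Continuous fun q : (Bool × G.Y) × (Bool × G.Y) => (q.1.1, q.2.1) := by fun_prop
    exact (isClosed_discrete {b : Bool × Bool | b.1 ≠ b.2}).preimage this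
  · exact isClosed_closure.preimage (by fun_prop)

instance [SecondCountableTopology E] : SecondCountableTopology G.X :=
  G.isQuotientMap_mk.secondCountableTopology G.isOpenMap_mk

open Classical in
/-- The inclusion of the sheet `b`. -/
noncomputable def j (b : Bool) (x : E) : G.X :=
  if h : x ∈ G.Y then G.proj (b, ⟨x, h⟩) else G.proj (b, ⟨G.base, G.base_mem⟩)

lemma j_of_mem (b : Bool) {x : E} (h : x ∈ G.Y) : G.j b x = G.proj (b, ⟨x, h⟩) := by
  simp [j, h]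

lemma j_eq_iff {b b' : Bool} {x y : E} (hx : x ∈ G.Y) (hy : y ∈ G.Y) :
    G.j b x = G.j b' y ↔ (b = b' ∧ x = y) ∨ (b ≠ b' ∧ x ∈ G.A ∧ y = G.σ x) := by
  rw [G.j_of_mem b hx, G.j_of_mem b' hy, G.mk_eq_iff]
  simp [rel]

lemma j_σ (b : Bool) {x : E} (hx : x ∈ G.A) : G.j (!b) (G.σ x) = G.j b x := by
  symm
  rw [G.j_eq_iff (G.hAY hx) (G.hAY (G.maps hx))]
  right
  exact ⟨by cases b <;> simp, hx, rfl⟩

lemma exists_j (q : G.X) : ∃ b, ∃ x ∈ G.Y, G.j b x = q := by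
  obtain ⟨p, rfl⟩ := G.mk_surjective q
  exact ⟨p.1, p.2.1, p.2.2, G.j_of_mem _ _⟩

lemma j_injOn (b : Bool) : InjOn (G.j b) G.Y := by
  intro x hx y hy h
  rcases (G.j_eq_iff hx hy).mp h with h | h
  · exact h.2
  · exact (h.1 rfl).elim

lemma restrict_j (b : Bool) : G.Y.domRestrict (G.j b) = fun y : G.Y => G.proj (b, y) := by
  funext y
  exact G.j_of_mem b y.2

lemma j_continuousOn (b : Bool) : ContinuousOn (G.j b) G.Y := by
  rw [continuousOn_iff_continuous_domRestrict, G.restrict_j]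
  exact G.continuous_mk.comp (by fun_prop)

lemma j_isOpenMap (b : Bool) : IsOpenMap (G.Y.domRestrict (G.j b)) := by
  rw [G.restrict_j]
  refine G.isOpenMap_mk.comp (f := fun y : G.Y => (b, y)) ?_
  intro U hU
  have : (fun y : G.Y => (b, y)) '' U = {b} ×ˢ U := by
    ext q
    simp only [mem_image, mem_prod, mem_singleton_iff]
    constructor
    · rintro ⟨y, hy, rfl⟩; exact ⟨rfl, hy⟩
    · rintro ⟨h1, h2⟩; exact ⟨q.2, h2, by rw [← h1]⟩
  rw [this]
  exact (isOpen_discrete _).prod hU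

/-- The chart of the sheet `b`. -/
noncomputable def chart (b : Bool) : OpenPartialHomeomorph G.X E :=
  haveI : Nonempty E := ⟨G.base⟩
  (OpenPartialHomeomorph.ofContinuousOpenRestrict ((G.j_injOn b).toPartialEquiv (G.j b) G.Y)
    (G.j_continuousOn b) (G.j_isOpenMap b) G.hY).symm

lemma chart_symm (b : Bool) : ⇑(G.chart b).symm = G.j b := rfl

lemma chart_target (b : Bool) : (G.chart b).target = G.Y := rfl

lemma chart_source (b : Bool) : (G.chart b).source = G.j b '' G.Y := rfl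

lemma chart_j (b : Bool) {x : E} (hx : x ∈ G.Y) : G.chart b (G.j b x) = x :=
  (G.chart b).right_inv hx

noncomputable instance : ChartedSpace E G.X where
  atlas := range G.chart
  chartAt q := G.chart (G.exists_j q).choose
  mem_chart_source q := by
    obtain ⟨x, hx, h⟩ := (G.exists_j q).choose_spec
    exact ⟨x, hx, h⟩
  chart_mem_atlas q := mem_range_self _

lemma atlas_eq : atlas E G.X = range G.chart := rfl

lemma exists_chartAt (q : G.X) : ∃ b, chartAt E q = G.chart b := ⟨_, rfl⟩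

instance : IsManifold 𝓘(ℂ, E) ω G.X := by
  apply isManifold_of_contDiffOn
  rintro _ _ ⟨b, rfl⟩ ⟨b', rfl⟩
  simp only [modelWithCornersSelf_coe, modelWithCornersSelf_coe_symm, preimage_id, range_id,
    inter_univ, Function.comp_id, Function.id_comp, OpenPartialHomeomorph.trans_source,
    OpenPartialHomeomorph.symm_source, chart_target, chart_source, chart_symm,
    OpenPartialHomeomorph.coe_trans]
  by_cases hb : b = b'
  · subst hb
    refine (contDiffOn_id).congr ?_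
    rintro x ⟨hx, -⟩
    exact G.chart_j b hx
  · have key : ∀ x ∈ G.Y ∩ G.j b ⁻¹' (G.j b' '' G.Y), x ∈ G.A ∧ G.j b x = G.j b' (G.σ x) := by
      rintro x ⟨hx, y, hy, h⟩
      rcases (G.j_eq_iff hx hy).mp h.symm with h' | h'
      · exact (hb h'.1).elim
      · exact ⟨h'.2.1, by rw [← h, h'.2.2]⟩
    refine (G.an.mono fun x hx => (key x hx).1).congr ?_
    intro x hx
    obtain ⟨h1, h2⟩ := key x hx
    simp only [Function.comp_apply]
    rw [h2, G.chart_j b' (G.hAY (G.maps h1))]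

/-- Descent of a `σ`-invariant function. -/
def lift {β : Type} (g : E → β) (hg : ∀ x ∈ G.A, g (G.σ x) = g x) : G.X → β :=
  Quotient.lift (s := G.setoid) (fun p => g p.2.1) (by
    rintro p q (h | ⟨-, h2, h3⟩)
    · rw [h]
    · rw [h3, hg _ h2])

lemma lift_j {β : Type} (g : E → β) (hg : ∀ x ∈ G.A, g (G.σ x) = g x) (b : Bool) {x : E}
    (hx : x ∈ G.Y) : G.lift g hg (G.j b x) = g x := by
  rw [G.j_of_mem b hx]
  rfl

lemma lift_chart_eventuallyEq {β : Type} (g : E → β) (hg : ∀ x ∈ G.A, g (G.σ x) = g x)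
    (b : Bool) {x : E} (hx : x ∈ G.Y) : G.lift g hg ∘ (G.chart b).symm =ᶠ[𝓝 x] g := by
  filter_upwards [G.hY.mem_nhds hx] with y hy
  exact G.lift_j g hg b hy

end GlueData

end Pool.Agent.MP_6b7ec3_an

end MrgPart0

-- ======== part 1: formerly Pool.Agent.MP_6b7ec3_an.Metric
section MrgPart1

/-!
A smooth strictly subharmonic function `ℓ` on the thickened fundamental domain which transforms
under the three involutions like the logarithm of a conformal metric: a negatively curved metric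
on the double of the pair of pants.
-/

set_option autoImplicit false

open Set Topology Filter Complex
open scoped ContDiff ComplexConjugate

namespace Pool.Agent.MP_6b7ec3_an

/-- The interior candidate. -/
noncomputable def bb (z : ℂ) : ℝ :=
  (-1 / 3) * Real.log (normSq ((z - c 1) * (z - c 2))) + (1 / 10 ^ 10) * normSq (z - c 0)

/-- Its reflection. -/
noncomputable def bs (j : Fin 3) (z : ℂ) : ℝ := bb (s j z) + Real.log (J j z)

/-- The difference. -/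
noncomputable def dd (j : Fin 3) (z : ℂ) : ℝ := bs j z - bb z

/-- The logarithm of the metric. -/
noncomputable def ℓ (z : ℂ) : ℝ := bb z + ∑ j, (Col 20 j).indicator (fun z => Ψ (dd j z)) z

lemma bb_eq (z : ℂ) :
    bb z = (-1 / 3) * Real.log ((n 1 z * n 2 z) ^ 2) + (1 / 10 ^ 10) * n 0 z ^ 2 := by
  rw [bb, map_mul, normSq_n, normSq_n, normSq_n, mul_pow]

lemma contDiffAt_bb_comp {h : ℂ → ℂ} {z : ℂ} (hh : ContDiffAt ℝ ∞ h z) (h1 : h z ≠ c 1)
    (h2 : h z ≠ c 2) : ContDiffAt ℝ ∞ (fun x => bb (h x)) z := by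
  unfold bb
  refine (contDiffAt_const.mul ((contDiffAt_normSq ((hh.sub contDiffAt_const).mul
    (hh.sub contDiffAt_const))).log ?_)).add
    (contDiffAt_const.mul (contDiffAt_normSq (hh.sub contDiffAt_const)))
  simpa using ⟨sub_ne_zero.mpr h1, sub_ne_zero.mpr h2⟩

lemma two_le_infty : (2 : WithTop ℕ∞) ≤ ∞ := by
  exact WithTop.coe_le_coe.mpr (le_top : (2 : ℕ∞) ≤ ⊤)

lemma Lap_bb_comp {h : ℂ → ℂ} {z : ℂ} (hh : ContDiffAt ℂ 2 h z) (h1 : h z ≠ c 1)
    (h2 : h z ≠ c 2) (v : ℂ) :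
    Lap (fun x => bb (h x)) z v = 4 / 10 ^ 10 * normSq (fderiv ℂ h z v) := by
  have hR := hh.restrict_scalars ℝ
  have hne : (h z - c 1) * (h z - c 2) ≠ 0 := mul_ne_zero (sub_ne_zero.mpr h1) (sub_ne_zero.mpr h2)
  have hp : ContDiffAt ℂ 2 (fun x => (h x - c 1) * (h x - c 2)) z :=
    (hh.sub contDiffAt_const).mul (hh.sub contDiffAt_const)
  have a1 : ContDiffAt ℝ 2 (fun x => Real.log (normSq ((h x - c 1) * (h x - c 2)))) z :=
    (contDiffAt_normSq (hp.restrict_scalars ℝ)).log (by simpa using hne)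
  have a2 : ContDiffAt ℝ 2 (fun x => normSq (h x - c 0)) z :=
    contDiffAt_normSq (hR.sub contDiffAt_const)
  unfold bb
  rw [Lap_add (contDiffAt_const.mul a1) (contDiffAt_const.mul a2), Lap_const_mul _ a1,
    Lap_const_mul _ a2, Lap_log_normSq hp hne, Lap_normSq (hh.sub contDiffAt_const),
    fderiv_sub_const]
  ring

lemma contDiffAt_bb {z : ℂ} (hz : z ∈ Z 20) : ContDiffAt ℝ ∞ bb z :=
  contDiffAt_bb_comp contDiffAt_id (Z_ne1 hz) (Z_ne2 hz)

lemma Lap_bb {z : ℂ} (hz : z ∈ Z 20) : 0 < Lap bb z 1 := by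
  have := Lap_bb_comp (h := id) contDiffAt_id (Z_ne1 hz) (Z_ne2 hz) 1
  simp only [id] at this
  rw [this]
  simp

lemma logJ_eventuallyEq {j : Fin 3} {z : ℂ} (hz : z ≠ c j) :
    (fun x => Real.log (J j x)) =ᶠ[𝓝 z]
      fun x => Real.log (r j ^ 2) - Real.log (normSq (x - c j)) := by
  filter_upwards [isOpen_ne.mem_nhds hz] with x hx
  rw [J, Real.log_div (pow_pos (r_pos j) 2).ne' (by simpa using sub_ne_zero.mpr hx)]

lemma contDiffAt_lognormSq {a z : ℂ} (hz : z ≠ a) {m : WithTop ℕ∞} :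
    ContDiffAt ℝ m (fun x => Real.log (normSq (x - a))) z :=
  (contDiffAt_normSq (contDiffAt_id.sub contDiffAt_const)).log
    (by simpa using sub_ne_zero.mpr hz)

lemma contDiffAt_logJ {j : Fin 3} {z : ℂ} (hz : z ≠ c j) :
    ContDiffAt ℝ ∞ (fun x => Real.log (J j x)) z :=
  (contDiffAt_const.sub (contDiffAt_lognormSq hz)).congr_of_eventuallyEq (logJ_eventuallyEq hz)

lemma Lap_logJ {j : Fin 3} {z : ℂ} (hz : z ≠ c j) (v : ℂ) :
    Lap (fun x => Real.log (J j x)) z v = 0 := by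
  rw [Lap_congr (logJ_eventuallyEq hz), Lap_sub contDiffAt_const (contDiffAt_lognormSq hz),
    Lap_const, Lap_log_normSq (h := fun x => x - c j) (contDiffAt_id.sub contDiffAt_const)
      (sub_ne_zero.mpr hz)]
  ring

lemma Col_s_mem_Z {j : Fin 3} {z : ℂ} (hz : z ∈ Col 20 j) : s j z ∈ Z 20 :=
  Col_mem_Z (by norm_num) le_rfl (Col_s_mem hz)

lemma contDiffAt_bbs {j : Fin 3} {z : ℂ} (hz : z ∈ Col 20 j) :
    ContDiffAt ℝ ∞ (fun x => bb (s j x)) z :=
  contDiffAt_bb_comp ((contDiffAt_s (Col_ne hz)).restrict_scalars ℝ) (Z_ne1 (Col_s_mem_Z hz))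
    (Z_ne2 (Col_s_mem_Z hz))

lemma contDiffAt_bs {j : Fin 3} {z : ℂ} (hz : z ∈ Col 20 j) : ContDiffAt ℝ ∞ (bs j) z :=
  (contDiffAt_bbs hz).add (contDiffAt_logJ (Col_ne hz))

lemma Lap_bs {j : Fin 3} {z : ℂ} (hz : z ∈ Col 20 j) : 0 < Lap (bs j) z 1 := by
  have hc := Col_ne hz
  unfold bs
  rw [Lap_add ((contDiffAt_bbs hz).of_le two_le_infty) ((contDiffAt_logJ hc).of_le two_le_infty),
    Lap_logJ hc, Lap_bb_comp (contDiffAt_s hc) (Z_ne1 (Col_s_mem_Z hz)) (Z_ne2 (Col_s_mem_Z hz)),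
    add_zero, fderiv_apply_one_eq_deriv, (hasDerivAt_s hc).deriv]
  have : -k j / (z - c j) ^ 2 ≠ 0 :=
    div_ne_zero (neg_ne_zero.mpr (k_ne_zero j)) (pow_ne_zero _ (sub_ne_zero.mpr hc))
  have := normSq_pos.mpr this
  positivity

lemma contDiffAt_dd {j : Fin 3} {z : ℂ} (hz : z ∈ Col 20 j) : ContDiffAt ℝ ∞ (dd j) z :=
  (contDiffAt_bs hz).sub (contDiffAt_bb (Col_mem_Z (by norm_num) le_rfl hz))

lemma ℓ_of_Col {j : Fin 3} {z : ℂ} (hz : z ∈ Col 20 j) : ℓ z = bb z + Ψ (dd j z) := by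
  rw [ℓ, Finset.sum_eq_single j, indicator_of_mem hz]
  · intro i _ hij
    exact indicator_of_notMem (fun h => hij (Col_unique h hz)) _
  · simp

lemma ℓ_eventuallyEq_Col {j : Fin 3} {z : ℂ} (hz : z ∈ Col 20 j) :
    ℓ =ᶠ[𝓝 z] fun x => bb x + Ψ (dd j x) := by
  filter_upwards [(isOpen_Col 20 j).mem_nhds hz] with x hx using ℓ_of_Col hx

lemma dd_s {j : Fin 3} {z : ℂ} (hz : z ≠ c j) : dd j (s j z) = -dd j z := by
  have h := J_s hz
  have h1 : Real.log (J j (s j z)) + Real.log (J j z) = 0 := by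
    rw [← Real.log_mul (J_pos (s_ne hz)).ne' (J_pos hz).ne', h, Real.log_one]
  simp only [dd, bs, s_s hz]
  linarith

lemma ℓ_s {j : Fin 3} {z : ℂ} (hz : z ∈ Col 20 j) : ℓ (s j z) = ℓ z - Real.log (J j z) := by
  rw [ℓ_of_Col hz, ℓ_of_Col (Col_s_mem hz), dd_s (Col_ne hz)]
  have := Ψ_sub (dd j z)
  simp only [dd, bs] at this ⊢
  linarith

/-- The outer part of the collars, where the reflection is not used. -/
def Far : Fin 3 → Set ℂ :=
  ![{z | 10 * n 0 z < r 0}, {z | 10 * r 1 < n 1 z}, {z | 10 * r 2 < n 2 z}]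

@[simp] lemma mem_Far0 (z : ℂ) : z ∈ Far 0 ↔ 10 * n 0 z < r 0 := Iff.rfl
@[simp] lemma mem_Far1 (z : ℂ) : z ∈ Far 1 ↔ 10 * r 1 < n 1 z := Iff.rfl
@[simp] lemma mem_Far2 (z : ℂ) : z ∈ Far 2 ↔ 10 * r 2 < n 2 z := Iff.rfl

lemma isOpen_Far (j : Fin 3) : IsOpen (Far j) := by
  fin_cases j
  · exact isOpen_lt (continuous_const.mul (continuous_n 0)) continuous_const
  · exact isOpen_lt continuous_const (continuous_n 1)
  · exact isOpen_lt continuous_const (continuous_n 2)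

lemma dd_le_of {j : Fin 3} {z : ℂ} (hz : z ∈ Col 20 j)
    (h : 32 * ((n 1 z * n 2 z) ^ 2 * J j z ^ 3) ≤ (n 1 (s j z) * n 2 (s j z)) ^ 2) :
    dd j z ≤ -1 := by
  have hZ := Col_mem_Z (by norm_num) le_rfl hz
  have hZ' := Col_s_mem_Z hz
  have a1 := n_pos (Z_ne1 hZ)
  have a2 := n_pos (Z_ne2 hZ)
  have a3 := J_pos (Col_ne hz)
  have h1 := Real.log_le_log (by positivity) h
  rw [Real.log_mul (by norm_num) (by positivity), Real.log_mul (by positivity) (by positivity),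
    Real.log_pow (J j z), show (32 : ℝ) = 2 ^ 5 by norm_num, Real.log_pow 2] at h1
  have h2 := Real.log_two_gt_d9
  have h3 : n 0 (s j z) ^ 2 ≤ 20000 ^ 2 := by
    have := hZ'.1
    have := n_nonneg 0 (s j z)
    simp only [r0] at *
    gcongr
    linarith
  have h4 := sq_nonneg (n 0 z)
  simp only [dd, bs, bb_eq]
  push_cast at h1
  linarith

lemma dd_le_small {x x' y y' ρ : ℝ} (hρ : 0 < ρ) (h1 : 10 * ρ < x) (h2 : x * x' = ρ ^ 2)
    (hy : 0 ≤ y) (h3 : y ≤ 3) (h4 : 19 / 10 ≤ y') :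
    32 * ((x * y) ^ 2 * (ρ ^ 2 / x ^ 2) ^ 3) ≤ (x' * y') ^ 2 := by
  have hx : 0 < x := by linarith
  have e : x' = ρ ^ 2 / x := by
    field_simp
    linarith
  have h5 : 32 * (y ^ 2 * ρ ^ 2) ≤ y' ^ 2 * x ^ 2 := by
    have b1 : y ^ 2 ≤ 3 ^ 2 := by gcongr
    have b2 : (19 / 10) ^ 2 ≤ y' ^ 2 := by gcongr
    have b3 : (10 * ρ) ^ 2 ≤ x ^ 2 := by gcongr
    have b4 : 0 < ρ ^ 2 := by positivity
    calc 32 * (y ^ 2 * ρ ^ 2) ≤ 32 * (3 ^ 2 * ρ ^ 2) := by gcongr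
      _ ≤ (19 / 10) ^ 2 * (10 * ρ) ^ 2 := by nlinarith
      _ ≤ y' ^ 2 * x ^ 2 := by gcongr
  rw [e]
  calc 32 * ((x * y) ^ 2 * (ρ ^ 2 / x ^ 2) ^ 3) = 32 * (y ^ 2 * ρ ^ 2) * (ρ ^ 4 / x ^ 4) := by
        field_simp
    _ ≤ y' ^ 2 * x ^ 2 * (ρ ^ 4 / x ^ 4) := by gcongr
    _ = _ := by field_simp

lemma dd_le_big {x x' y1 y2 y1' y2' ρ : ℝ} (hρ : 0 < ρ) (hx : 0 < x) (h1 : 10 * x < ρ)
    (h2 : x * x' = ρ ^ 2) (hy1 : 0 ≤ y1) (hy2 : 0 ≤ y2) (h3 : y1 ≤ 11 / 10 * x)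
    (h4 : y2 ≤ 11 / 10 * x) (h5 : 9 / 10 * x' ≤ y1') (h6 : 9 / 10 * x' ≤ y2') :
    32 * ((y1 * y2) ^ 2 * (ρ ^ 2 / x ^ 2) ^ 3) ≤ (y1' * y2') ^ 2 := by
  have e : x' = ρ ^ 2 / x := by
    field_simp
    linarith
  have hx' : 0 < x' := by rw [e]; positivity
  have b3 : (10 * x) ^ 2 ≤ ρ ^ 2 := by gcongr
  calc 32 * ((y1 * y2) ^ 2 * (ρ ^ 2 / x ^ 2) ^ 3)
      ≤ 32 * (((11 / 10 * x) * (11 / 10 * x)) ^ 2 * (ρ ^ 2 / x ^ 2) ^ 3) := by gcongr
    _ = 32 * (11 / 10) ^ 4 / 100 * (10 * x) ^ 2 * (ρ ^ 6 / x ^ 4) := by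
        field_simp
        ring
    _ ≤ (9 / 10) ^ 4 * ρ ^ 2 * (ρ ^ 6 / x ^ 4) := by
        gcongr
        norm_num
    _ = ((9 / 10 * x') * (9 / 10 * x')) ^ 2 := by
        rw [e]
        field_simp
    _ ≤ (y1' * y2') ^ 2 := by
        gcongr
        linarith

lemma dd_le {j : Fin 3} {z : ℂ} (hz : z ∈ Col 20 j) (hF : z ∈ Far j) : dd j z ≤ -1 := by
  apply dd_le_of hz
  have hp := n_mul_n_s (Col_ne hz)
  have hn := n_pos (Col_ne hz)
  have t1 := tri z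
  have t2 := tri (s j z)
  obtain ⟨a1, a2⟩ := Col_s_mem hz
  obtain ⟨b1, b2⟩ := hz
  rw [J_eq]
  fin_cases j <;> simp only [Fin.zero_eta, Fin.mk_one, Fin.reduceFinMk, mem_Far0, mem_Far1,
    mem_Far2] at *
  · refine dd_le_big (r_pos 0) hn hF hp (n_nonneg _ _) (n_nonneg _ _) ?_ ?_ ?_ ?_ <;>
      simp only [r0] at * <;> linarith
  · refine dd_le_small (r_pos 1) hF hp (n_nonneg _ _) ?_ ?_ <;> simp only [r1] at * <;> linarith
  · rw [mul_comm (n 1 z), mul_comm (n 1 (s 2 z))]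
    refine dd_le_small (r_pos 2) hF hp (n_nonneg _ _) ?_ ?_ <;> simp only [r2] at * <;> linarith

lemma mem_Far_of {j : Fin 3} {z : ℂ} (hz : z ∈ Z 20) (h : z ∉ Col 20 j) : z ∈ Far j := by
  obtain ⟨h0, h1, h2⟩ := hz
  have := n_nonneg 0 z
  simp only [Col, mem_ofPred_eq, not_and_or, not_lt] at h
  fin_cases j <;> simp only [Fin.zero_eta, Fin.mk_one, Fin.reduceFinMk, mem_Far0, mem_Far1,
    mem_Far2, r0, r1, r2] at * <;> rcases h with h | h <;> linarith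

lemma ℓ_eventuallyEq_bb {z : ℂ} (hz : z ∈ Z 20) (h : ∀ j, z ∉ Col 20 j) : ℓ =ᶠ[𝓝 z] bb := by
  have h1 : ∀ᶠ x in 𝓝 z, ∀ j, x ∈ Far j :=
    eventually_all.mpr fun j => (isOpen_Far j).mem_nhds (mem_Far_of hz (h j))
  filter_upwards [h1] with x hx
  rw [ℓ, Finset.sum_eq_zero, add_zero]
  intro j _
  by_cases hj : x ∈ Col 20 j
  · rw [indicator_of_mem hj, Ψ_zero (dd_le hj (hx j))]
  · exact indicator_of_notMem hj _

lemma contDiffAt_ℓ {z : ℂ} (hz : z ∈ Z 20) : ContDiffAt ℝ ∞ ℓ z := by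
  by_cases h : ∃ j, z ∈ Col 20 j
  · obtain ⟨j, hj⟩ := h
    exact ((contDiffAt_bb hz).add (contDiff_Ψ.contDiffAt.comp z
      (contDiffAt_dd hj))).congr_of_eventuallyEq (ℓ_eventuallyEq_Col hj)
  · push Not at h
    exact (contDiffAt_bb hz).congr_of_eventuallyEq (ℓ_eventuallyEq_bb hz h)

lemma Lap_ℓ {z : ℂ} (hz : z ∈ Z 20) : 0 < Lap ℓ z 1 := by
  by_cases h : ∃ j, z ∈ Col 20 j
  · obtain ⟨j, hj⟩ := h
    have h1 := (contDiffAt_bb hz).of_le two_le_infty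
    have h2 := (contDiffAt_bs hj).of_le two_le_infty
    have h3 := (contDiffAt_dd hj).of_le two_le_infty
    have h4 : ContDiffAt ℝ 2 Ψ (dd j z) := contDiff_Ψ.contDiffAt.of_le two_le_infty
    have h5 : Lap (dd j) z 1 = Lap (bs j) z 1 - Lap bb z 1 := Lap_sub h2 h1 1
    rw [Lap_congr (ℓ_eventuallyEq_Col hj), Lap_add (u' := fun x => Ψ (dd j x)) h1 (h4.comp z h3),
      Lap_comp h4 h3, h5, deriv_Ψ]
    have a1 := Lap_bb hz
    have a2 := Lap_bs hj
    have a3 := S_nonneg (dd j z)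
    have a4 := S_le_one (dd j z)
    have a5 := mul_nonneg (deriv_S_nonneg (dd j z)) (Grd_nonneg (dd j) z 1)
    rcases le_total (Lap bb z 1) (Lap (bs j) z 1) with h | h
    · nlinarith
    · nlinarith
  · push Not at h
    rw [Lap_congr (ℓ_eventuallyEq_bb hz h)]
    exact Lap_bb hz

lemma exp_ℓ_ge {z : ℂ} (hz : z ∈ Z 20) : 1 / 10 ^ 6 ≤ Real.exp (ℓ z) := by
  have h1 : bb z ≤ ℓ z := by
    rw [ℓ, le_add_iff_nonneg_right]
    exact Finset.sum_nonneg fun j _ => indicator_nonneg (fun x _ => Ψ_nonneg _) _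
  have a1 := n_pos (Z_ne1 hz)
  have a2 := n_pos (Z_ne2 hz)
  have t := tri z
  have h0 := hz.1
  rw [r0] at h0
  have h2 : (n 1 z * n 2 z) ^ 2 ≤ (10 ^ 6) ^ 3 := by
    calc (n 1 z * n 2 z) ^ 2 ≤ (20002 * 20002) ^ 2 := by gcongr <;> linarith
      _ ≤ _ := by norm_num
  have h3 := Real.log_le_log (by positivity) h2
  rw [Real.log_pow (10 ^ 6)] at h3
  have h4 : -Real.log (10 ^ 6) ≤ ℓ z := by
    rw [bb_eq] at h1
    have := sq_nonneg (n 0 z)
    push_cast at h3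
    linarith
  calc (1 : ℝ) / 10 ^ 6 = Real.exp (-Real.log (10 ^ 6)) := by
        rw [Real.exp_neg, Real.exp_log (by norm_num), one_div]
    _ ≤ _ := Real.exp_le_exp.mpr h4

end Pool.Agent.MP_6b7ec3_an

end MrgPart1

-- ======== part 2: formerly Pool.Agent.MP_6b7ec3_an.Theta
section MrgPart2

/-!
The positive weight `ψ (z, w)`, equal to `|z - w|² exp (ℓ z)` away from the diagonal, with
`log ψ` strictly subharmonic in `z`, and the defining function `ρ0 = - δ w / ψ`.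
-/

set_option autoImplicit false

open Set Topology Filter Complex
open scoped ContDiff ComplexConjugate

namespace Pool.Agent.MP_6b7ec3_an

/-- An invariant squared distance to the diagonal. -/
noncomputable def t0 (p : ℂ × ℂ) : ℝ :=
  10 ^ 26 * Real.exp (ℓ p.2) * (normSq (p.1 - p.2) * Real.exp (ℓ p.1))

open Classical in
/-- The correction near the diagonal. -/
noncomputable def τ (p : ℂ × ℂ) : ℝ :=
  if p.2 ∈ Z 20 then Real.exp (-ℓ p.2) / 10 ^ 26 * (Ψ (1 - t0 p) / 2) else 0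

/-- The weight. -/
noncomputable def ψ (p : ℂ × ℂ) : ℝ := normSq (p.1 - p.2) * Real.exp (ℓ p.1) + τ p

lemma t0_nonneg (p : ℂ × ℂ) : 0 ≤ t0 p := by
  have := normSq_nonneg (p.1 - p.2)
  unfold t0
  positivity

lemma Z3_20 {z : ℂ} (hz : z ∈ Z 3) : z ∈ Z 20 := Z_mono (by norm_num) hz

lemma τ_zero {p : ℂ × ℂ} (hz : p.1 ∈ Z 3) (h : 2 / 10 ^ 7 ≤ ‖p.1 - p.2‖) : τ p = 0 := by
  unfold τ
  split_ifs with hw
  · have h1 := exp_ℓ_ge (Z3_20 hz)
    have h2 := exp_ℓ_ge hw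
    have h3 : 2 ≤ t0 p := by
      rw [t0, Complex.normSq_eq_norm_sq]
      calc (2 : ℝ) ≤ 10 ^ 26 * (1 / 10 ^ 6) * ((2 / 10 ^ 7) ^ 2 * (1 / 10 ^ 6)) := by norm_num
        _ ≤ _ := by gcongr
    rw [Ψ_zero (by linarith)]
    simp
  · rfl

lemma dist_Z {z w : ℂ} (hz : z ∈ Z 3) (hw : w ∉ Z 10) : 2 / 10 ^ 7 ≤ ‖z - w‖ := by
  obtain ⟨h0, h1, h2⟩ := hz
  have a0 := abs_le.mp (n_sub_le 0 z w)
  have a1 := abs_le.mp (n_sub_le 1 z w)
  have a2 := abs_le.mp (n_sub_le 2 z w)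
  simp only [Z, mem_ofPred_eq, not_and_or, not_lt, r0, r1, r2] at *
  rcases hw with h | h | h <;> linarith

lemma dist_Col {j : Fin 3} {z w : ℂ} (hz : z ∈ Col 3 j) (hw : w ∉ Col 20 j) :
    2 / 10 ^ 7 ≤ ‖z - w‖ := by
  obtain ⟨h0, h1⟩ := hz
  have a0 := abs_le.mp (n_sub_le j z w)
  have := r_ge j
  simp only [Col, mem_ofPred_eq, not_and_or, not_lt] at *
  rcases hw with h | h <;> linarith

lemma compl_Z10_mem {w : ℂ} (hw : w ∉ Z 20) : (Z 10)ᶜ ∈ 𝓝 w := by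
  simp only [Z, mem_ofPred_eq, not_and_or, not_lt] at hw
  have t := tri w
  rcases hw with h | h | h
  · have : 10 * r 0 < n 0 w := by simp only [r0] at *; linarith
    filter_upwards [(isOpen_lt continuous_const (continuous_n 0)).mem_nhds this] with x hx hx'
    exact lt_asymm hx hx'.1
  · have : 10 * n 1 w < r 1 := by simp only [r1] at *; linarith
    filter_upwards [(isOpen_lt (continuous_const.mul (continuous_n 1))
      continuous_const).mem_nhds this] with x hx hx'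
    exact lt_asymm hx hx'.2.1
  · have : 10 * n 2 w < r 2 := by simp only [r2] at *; linarith
    filter_upwards [(isOpen_lt (continuous_const.mul (continuous_n 2))
      continuous_const).mem_nhds this] with x hx hx'
    exact lt_asymm hx hx'.2.2

lemma ψ_eventuallyEq_far {p : ℂ × ℂ} (hz : p.1 ∈ Z 3) (hw : p.2 ∉ Z 20) :
    ψ =ᶠ[𝓝 p] fun q => normSq (q.1 - q.2) * Real.exp (ℓ q.1) := by
  filter_upwards [continuousAt_fst.preimage_mem_nhds ((isOpen_Z 3).mem_nhds hz),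
    continuousAt_snd.preimage_mem_nhds (compl_Z10_mem hw)] with q h1 h2
  rw [ψ, τ_zero h1 (dist_Z h1 h2), add_zero]

lemma ψ_near {p : ℂ × ℂ} (hw : p.2 ∈ Z 20) : ψ p = Real.exp (-ℓ p.2) / 10 ^ 26 * Φ (t0 p) := by
  rw [ψ, τ, if_pos hw, Φ, mul_add]
  congr 1
  rw [t0, Real.exp_neg]
  field_simp

lemma ψ_eventuallyEq_near {p : ℂ × ℂ} (hw : p.2 ∈ Z 20) :
    ψ =ᶠ[𝓝 p] fun q => Real.exp (-ℓ q.2) / 10 ^ 26 * Φ (t0 q) := by
  filter_upwards [continuousAt_snd.preimage_mem_nhds ((isOpen_Z 20).mem_nhds hw)] with q h2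
  exact ψ_near h2

lemma ψ_pos {p : ℂ × ℂ} (hz : p.1 ∈ Z 3) : 0 < ψ p := by
  by_cases hw : p.2 ∈ Z 20
  · rw [ψ_near hw]
    have := Φ_pos (t0_nonneg p)
    positivity
  · rw [(ψ_eventuallyEq_far hz hw).eq_of_nhds]
    have h : p.1 - p.2 ≠ 0 := by
      rw [sub_ne_zero]
      intro h
      exact hw (h ▸ Z3_20 hz)
    have := normSq_pos.mpr h
    positivity

lemma contDiffAt_first {p : ℂ × ℂ} (hz : p.1 ∈ Z 3) :
    ContDiffAt ℝ ∞ (fun q : ℂ × ℂ => normSq (q.1 - q.2) * Real.exp (ℓ q.1)) p :=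
  (contDiffAt_normSq (contDiffAt_fst.sub contDiffAt_snd)).mul
    (ContDiffAt.comp (g := ℓ) p (contDiffAt_ℓ (Z3_20 hz)) contDiffAt_fst).exp

lemma contDiffAt_ψ {p : ℂ × ℂ} (hz : p.1 ∈ Z 3) : ContDiffAt ℝ ∞ ψ p := by
  by_cases hw : p.2 ∈ Z 20
  · have h1 : ContDiffAt ℝ ∞ (fun q : ℂ × ℂ => ℓ q.2) p :=
      ContDiffAt.comp (g := ℓ) p (contDiffAt_ℓ hw) contDiffAt_snd
    have h2 : ContDiffAt ℝ ∞ t0 p := (contDiffAt_const.mul h1.exp).mul (contDiffAt_first hz)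
    exact ((h1.neg.exp.div_const _).mul (contDiff_Φ.contDiffAt.comp p h2)).congr_of_eventuallyEq
      (ψ_eventuallyEq_near hw)
  · exact (contDiffAt_first hz).congr_of_eventuallyEq (ψ_eventuallyEq_far hz hw)

/-- The logarithm of the weight. -/
noncomputable def θ (p : ℂ × ℂ) : ℝ := Real.log (ψ p)

lemma contDiffAt_θ {p : ℂ × ℂ} (hz : p.1 ∈ Z 3) : ContDiffAt ℝ ∞ θ p :=
  (contDiffAt_ψ hz).log (ψ_pos hz).ne'

lemma Lap_fst {u : ℂ × ℂ → ℝ} {p : ℂ × ℂ} (hu : ContDiffAt ℝ 2 u p) :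
    Lap u p (1, 0) = Lap (fun z => u (z, p.2)) p.1 1 := by
  have e : ∀ z : ℂ, (ContinuousLinearMap.inl ℝ ℂ ℂ) z + (0, p.2) = (z, p.2) := by
    intro z
    simp
  have h := fun v => D2_clm (u := u) (ContinuousLinearMap.inl ℝ ℂ ℂ) (0, p.2) (p := p.1)
    (by rw [e]; exact hu) v
  simp only [e] at h
  unfold Lap
  rw [h, h]
  simp

lemma Lap_log_first {z w : ℂ} (hz : z ∈ Z 20) (hzw : z ≠ w) {β : ℝ} (hβ : 0 < β) :
    0 < Lap (fun x => Real.log (β * (normSq (x - w) * Real.exp (ℓ x)))) z 1 := by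
  have h1 : (fun x => Real.log (β * (normSq (x - w) * Real.exp (ℓ x)))) =ᶠ[𝓝 z]
      fun x => Real.log β + (Real.log (normSq (x - w)) + ℓ x) := by
    filter_upwards [isOpen_ne.mem_nhds hzw] with x hx
    have : normSq (x - w) ≠ 0 := by simpa using sub_ne_zero.mpr hx
    rw [Real.log_mul hβ.ne' (mul_ne_zero this (Real.exp_pos _).ne'),
      Real.log_mul this (Real.exp_pos _).ne', Real.log_exp]
  have h2 := (contDiffAt_ℓ hz).of_le two_le_infty
  rw [Lap_congr h1, Lap_add contDiffAt_const ((contDiffAt_lognormSq hzw).add h2), Lap_const,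
    Lap_add (contDiffAt_lognormSq hzw) h2, Lap_log_normSq (h := fun x => x - w)
      (contDiffAt_id.sub contDiffAt_const) (sub_ne_zero.mpr hzw)]
  simpa using Lap_ℓ hz

lemma Lap_logΦ {z w : ℂ} (hz : z ∈ Z 20) {β : ℝ} (hβ : 0 < β) :
    0 < Lap (fun x => Real.log (Φ (β * (normSq (x - w) * Real.exp (ℓ x))))) z 1 := by
  set t : ℂ → ℝ := fun x => β * (normSq (x - w) * Real.exp (ℓ x)) with ht
  have h2 := ((contDiffAt_ℓ hz).of_le two_le_infty).exp
  have hc : ContDiffAt ℂ 2 (fun x => x - w) z := contDiffAt_id.sub contDiffAt_const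
  have h3 : ContDiffAt ℝ 2 (fun x => normSq (x - w)) z := contDiffAt_normSq (hc.restrict_scalars ℝ)
  have h4 : ContDiffAt ℝ 2 t z := contDiffAt_const.mul (h3.mul h2)
  have h5 : 0 ≤ t z := by
    have := normSq_nonneg (z - w)
    simp only [ht]
    positivity
  have h6 : ContDiffAt ℝ 2 Φ (t z) := contDiff_Φ.contDiffAt.of_le two_le_infty
  have h7 := Φ_pos h5
  change 0 < Lap (fun x => Real.log (Φ (t x))) z 1
  rw [Lap_log (u := fun x => Φ (t x)) (h6.comp z h4) h7.ne', Lap_comp h6 h4,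
    Grd_comp (h6.differentiableAt (by norm_num)) (h4.differentiableAt (by norm_num))]
  refine div_pos (Φ_key h5 (Grd_nonneg _ _ _) ?_ ?_) (by positivity)
  · intro h0
    have hzw : z = w := by
      simpa [ht, hβ.ne', sub_eq_zero] using h0
    subst hzw
    have hd : ∀ v, fderiv ℝ (fun x => normSq (x - z)) z v = 0 := by
      intro v
      rw [fderiv_normSq (hc.differentiableAt (by norm_num))]
      simp
    constructor
    · have : ∀ v, fderiv ℝ t z v = 0 := by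
        intro v
        rw [ht, fderiv_const_mul ((h3.mul h2).differentiableAt (by norm_num)),
          fderiv_fun_mul (h3.differentiableAt (by norm_num)) (h2.differentiableAt (by norm_num))]
        simp [hd]
      simp [Grd, this]
    · rw [ht, Lap_const_mul _ (h3.mul h2), Lap_mul h3 h2, Lap_normSq hc, fderiv_sub_const]
      simp only [Crs, hd]
      simp
      positivity
  · intro h0
    have hzw : z ≠ w := by
      rintro rfl
      simp [ht] at h0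
    have h8 := Lap_log_first hz hzw hβ
    change 0 < Lap (fun x => Real.log (t x)) z 1 at h8
    rw [Lap_log h4 h0.ne', div_pos_iff_of_pos_right (by positivity)] at h8
    linarith

lemma Lap_θ {p : ℂ × ℂ} (hz : p.1 ∈ Z 3) : 0 < Lap θ p (1, 0) := by
  rw [Lap_fst ((contDiffAt_θ hz).of_le two_le_infty)]
  have hcont : ContinuousAt (fun z : ℂ => (z, p.2)) p.1 := by fun_prop
  by_cases hw : p.2 ∈ Z 20
  · have hβ : (0 : ℝ) < 10 ^ 26 * Real.exp (ℓ p.2) := by positivity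
    have h1 : (fun z => θ (z, p.2)) = fun z => Real.log (Real.exp (-ℓ p.2) / 10 ^ 26) +
        Real.log (Φ (10 ^ 26 * Real.exp (ℓ p.2) * (normSq (z - p.2) * Real.exp (ℓ z)))) := by
      funext z
      rw [θ, ψ_near (p := (z, p.2)) hw, Real.log_mul (by positivity) (Φ_pos (t0_nonneg _)).ne']
      rfl
    have h2 := ((contDiffAt_ℓ (Z3_20 hz)).of_le two_le_infty).exp
    have h3 : ContDiffAt ℝ 2 (fun x => normSq (x - p.2)) p.1 :=
      contDiffAt_normSq (contDiffAt_id.sub contDiffAt_const)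
    have h4 : ContDiffAt ℝ 2 (fun z => Real.log (Φ (10 ^ 26 * Real.exp (ℓ p.2) *
        (normSq (z - p.2) * Real.exp (ℓ z))))) p.1 :=
      ((contDiff_Φ.contDiffAt.of_le two_le_infty).comp p.1
        (contDiffAt_const.mul (h3.mul h2))).log (Φ_pos (t0_nonneg p)).ne'
    rw [h1, Lap_add contDiffAt_const h4, Lap_const, zero_add]
    exact Lap_logΦ (Z3_20 hz) hβ
  · have h1 : (fun z => θ (z, p.2)) =ᶠ[𝓝 p.1]
        fun z => Real.log (1 * (normSq (z - p.2) * Real.exp (ℓ z))) := by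
      filter_upwards [hcont.eventually (ψ_eventuallyEq_far hz hw)] with z hz'
      rw [θ, hz', one_mul]
    rw [Lap_congr h1]
    exact Lap_log_first (w := p.2) (Z3_20 hz) (fun h => hw (h ▸ Z3_20 hz)) one_pos

lemma exp_ℓ_s {j : Fin 3} {z : ℂ} (hz : z ∈ Col 20 j) :
    Real.exp (ℓ (s j z)) = Real.exp (ℓ z) / J j z := by
  rw [ℓ_s hz, Real.exp_sub, Real.exp_log (J_pos (Col_ne hz))]

lemma first_s {j : Fin 3} {z w : ℂ} (hz : z ∈ Col 20 j) (hw : w ≠ c j) :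
    normSq (s j z - s j w) * Real.exp (ℓ (s j z)) =
      J j w * (normSq (z - w) * Real.exp (ℓ z)) := by
  have := J_pos (Col_ne hz)
  rw [normSq_s_sub (Col_ne hz) hw, exp_ℓ_s hz]
  field_simp

lemma ψ_s {j : Fin 3} {z w : ℂ} (hz : z ∈ Col 3 j) (hw : w ≠ c j) :
    ψ (s j z, s j w) = J j w * ψ (z, w) := by
  have hz' : z ∈ Col 20 j := Col_mono (by norm_num) hz
  simp only [ψ, mul_add]
  rw [first_s hz' hw]
  congr 1
  by_cases h : w ∈ Col 20 j
  · have hJ := J_pos hw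
    have h1 : t0 (s j z, s j w) = t0 (z, w) := by
      simp only [t0]
      rw [first_s hz' hw, exp_ℓ_s h]
      field_simp
    simp only [τ]
    rw [if_pos (Col_s_mem_Z h), if_pos (Col_mem_Z (by norm_num) le_rfl h), h1, Real.exp_neg,
      Real.exp_neg, exp_ℓ_s h]
    field_simp
  · have h' : s j w ∉ Col 20 j := fun h' => h (s_s hw ▸ Col_s_mem h')
    rw [τ_zero (p := (z, w)) (Col_mem_Z (by norm_num) (by norm_num) hz) (dist_Col hz h),
      τ_zero (p := (s j z, s j w)) (Col_mem_Z (by norm_num) (by norm_num) (Col_s_mem hz))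
        (dist_Col (Col_s_mem hz) h'), mul_zero]

/-- The defining function in the charts. -/
noncomputable def ρ0 (p : ℂ × ℂ) : ℝ := -δ p.2 / ψ p

lemma ρ0_s {j : Fin 3} {z w : ℂ} (hz : z ∈ Col 3 j) (hw : w ≠ c j) :
    ρ0 (s j z, s j w) = ρ0 (z, w) := by
  have := J_pos hw
  simp only [ρ0]
  rw [ψ_s hz hw, δ_s hw, ← mul_neg, mul_div_mul_left _ _ this.ne']

lemma contDiffAt_δ2 (p : ℂ × ℂ) {m : WithTop ℕ∞} :
    ContDiffAt ℝ m (fun q : ℂ × ℂ => δ q.2) p :=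
  contDiffAt_const.sub (contDiffAt_normSq contDiffAt_snd)

lemma contDiffAt_ρ0 {p : ℂ × ℂ} (hz : p.1 ∈ Z 3) : ContDiffAt ℝ ∞ ρ0 p :=
  (contDiffAt_δ2 p).neg.div (contDiffAt_ψ hz) (ψ_pos hz).ne'

lemma ρ0_neg_iff {p : ℂ × ℂ} (hz : p.1 ∈ Z 3) : ρ0 p < 0 ↔ 0 < δ p.2 := by
  rw [ρ0, div_lt_iff₀ (ψ_pos hz), zero_mul, neg_lt_zero]

lemma ρ0_eq_zero_iff {p : ℂ × ℂ} (hz : p.1 ∈ Z 3) : ρ0 p = 0 ↔ δ p.2 = 0 := by
  rw [ρ0, div_eq_zero_iff, neg_eq_zero]
  simp [(ψ_pos hz).ne']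

end Pool.Agent.MP_6b7ec3_an

end MrgPart2

-- ======== part 3: formerly Pool.Agent.MP_6b7ec3_an.Psh
section MrgPart3

/-!
Levi-flatness of the zero set of `ρ0` and strict plurisubharmonicity of `-(-ρ0) ^ η` near it.
-/

set_option autoImplicit false
set_option maxSynthPendingDepth 3

open Set Topology Filter Complex
open scoped ContDiff ComplexConjugate

namespace Pool.Agent.MP_6b7ec3_an

lemma fderiv_snd' (p v : ℂ × ℂ) : fderiv ℂ (fun q : ℂ × ℂ => q.2) p v = v.2 := by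
  rw [show (fun q : ℂ × ℂ => q.2) = Prod.snd from rfl, fderiv_snd]
  rfl

lemma contDiffAt_N2 (p : ℂ × ℂ) : ContDiffAt ℝ 2 (fun q : ℂ × ℂ => normSq q.2) p :=
  contDiffAt_normSq contDiffAt_snd

lemma Lap_δ2 (p v : ℂ × ℂ) : Lap (fun q : ℂ × ℂ => δ q.2) p v = -(4 * normSq v.2) := by
  unfold δ
  rw [Lap_sub contDiffAt_const (contDiffAt_N2 p), Lap_const,
    Lap_normSq (h := fun q : ℂ × ℂ => q.2) contDiffAt_snd, fderiv_snd']
  ring

lemma Grd_δ2 (p v : ℂ × ℂ) :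
    Grd (fun q : ℂ × ℂ => δ q.2) p v = 4 * normSq p.2 * normSq v.2 := by
  have := Grd_normSq (h := fun q : ℂ × ℂ => q.2) (p := p) differentiableAt_snd v
  rw [fderiv_snd'] at this
  rw [← this]
  unfold δ Grd
  rw [fderiv_const_sub]
  simp

lemma ρ0_eq_mul : ρ0 = fun q : ℂ × ℂ => δ q.2 * (-(ψ q)⁻¹) := by
  funext q
  rw [ρ0]
  ring

lemma contDiffAt_invψ {p : ℂ × ℂ} (hz : p.1 ∈ Z 3) : ContDiffAt ℝ 2 (fun q => -(ψ q)⁻¹) p :=
  (((contDiffAt_ψ hz).of_le two_le_infty).inv (ψ_pos hz).ne').neg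

lemma fderiv_ρ0 {p : ℂ × ℂ} (hz : p.1 ∈ Z 3) (h0 : δ p.2 = 0) (v : ℂ × ℂ) :
    fderiv ℝ ρ0 p v = -(ψ p)⁻¹ * fderiv ℝ (fun q : ℂ × ℂ => δ q.2) p v := by
  rw [ρ0_eq_mul, fderiv_fun_mul ((contDiffAt_δ2 p (m := 2)).differentiableAt (by norm_num))
    ((contDiffAt_invψ hz).differentiableAt (by norm_num))]
  simp [h0]

lemma normSq_ne_of_δ {w : ℂ} (h0 : δ w = 0) : normSq w ≠ 0 := by
  have := L_pos
  rw [δ, sub_eq_zero] at h0
  rw [← h0]
  positivity

lemma fderiv_ρ0_ne {p : ℂ × ℂ} (hz : p.1 ∈ Z 3) (h0 : δ p.2 = 0) : fderiv ℝ ρ0 p ≠ 0 := by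
  intro h
  have hψ : -(ψ p)⁻¹ ≠ 0 := by simpa using (ψ_pos hz).ne'
  have h1 : ∀ v, fderiv ℝ (fun q : ℂ × ℂ => δ q.2) p v = 0 := by
    intro v
    have := fderiv_ρ0 hz h0 v
    rw [h] at this
    exact (mul_eq_zero.mp this.symm).resolve_left hψ
  have h2 := Grd_δ2 p (0, 1)
  simp [Grd, h1] at h2
  exact normSq_ne_of_δ h0 (by simp [h2])

lemma levi_flat {p : ℂ × ℂ} (hz : p.1 ∈ Z 3) (h0 : δ p.2 = 0) {v : ℂ × ℂ}
    (h1 : fderiv ℝ ρ0 p v = 0) (h2 : fderiv ℝ ρ0 p (I • v) = 0) : Lap ρ0 p v = 0 := by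
  have hψ : -(ψ p)⁻¹ ≠ 0 := by simpa using (ψ_pos hz).ne'
  rw [fderiv_ρ0 hz h0] at h1 h2
  have h3 := (mul_eq_zero.mp h1).resolve_left hψ
  have h4 := (mul_eq_zero.mp h2).resolve_left hψ
  have h5 := Grd_δ2 p v
  rw [Grd, h3, h4] at h5
  have h6 : normSq v.2 = 0 := by
    have := normSq_ne_of_δ h0
    have h7 : 4 * normSq p.2 * normSq v.2 = 0 := by linarith
    exact (mul_eq_zero.mp h7).resolve_left (mul_ne_zero (by norm_num) this)
  rw [ρ0_eq_mul, Lap_mul (contDiffAt_δ2 p) (contDiffAt_invψ hz), Lap_δ2, h0, h6, Crs, h3, h4]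
  ring

/-- The closed thickened fundamental domain. -/
def Zc : Set ℂ := {z | n 0 z ≤ 2 * r 0 ∧ r 1 ≤ 2 * n 1 z ∧ r 2 ≤ 2 * n 2 z}

lemma Zc_sub {z : ℂ} (hz : z ∈ Zc) : z ∈ Z 3 := by
  obtain ⟨h0, h1, h2⟩ := hz
  refine ⟨?_, ?_, ?_⟩ <;> simp only [r0, r1, r2] at * <;> linarith

lemma isCompact_Zc : IsCompact Zc := by
  refine (isCompact_closedBall (c 0) (2 * r 0)).of_isClosed_subset ?_ ?_
  · exact (isClosed_le (continuous_n 0) continuous_const).inter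
      ((isClosed_le continuous_const (continuous_const.mul (continuous_n 1))).inter
        (isClosed_le continuous_const (continuous_const.mul (continuous_n 2))))
  · intro z hz
    rw [mem_closedBall_iff_norm]
    exact hz.1

lemma exists_bounds : ∃ κ M : ℝ, 0 < κ ∧ 0 < M ∧ ∀ p : ℂ × ℂ, p.1 ∈ Z 2 → 0 ≤ δ p.2 →
    κ ≤ Lap θ p (1, 0) ∧ ‖fderiv ℝ θ p‖ ≤ M ∧ ‖fderiv ℝ (fderiv ℝ θ) p‖ ≤ M ∧ ψ p ≤ M := by
  set K0 : Set (ℂ × ℂ) := Zc ×ˢ Metric.closedBall 0 L with hK0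
  have hK : IsCompact K0 := isCompact_Zc.prod (isCompact_closedBall _ _)
  have hθ : ∀ p ∈ K0, ContDiffAt ℝ 2 θ p := fun p hp =>
    (contDiffAt_θ (Zc_sub hp.1)).of_le two_le_infty
  have c1 : ContinuousOn (fderiv ℝ θ) K0 := fun p hp =>
    (diff_fderiv (hθ p hp)).continuousAt.continuousWithinAt
  have c2 : ContinuousOn (fderiv ℝ (fderiv ℝ θ)) K0 := fun p hp =>
    (((hθ p hp).fderiv_right (m := 1) (by norm_num)).fderiv_right (m := 0)
      (by norm_num)).continuousAt.continuousWithinAt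
  have c3 : ContinuousOn ψ K0 := fun p hp =>
    (contDiffAt_ψ (Zc_sub hp.1)).continuousAt.continuousWithinAt
  have c4 : ContinuousOn (fun p => Lap θ p (1, 0)) K0 := by
    unfold Lap D2
    exact ((c2.clm_apply continuousOn_const).clm_apply continuousOn_const).add
      ((c2.clm_apply continuousOn_const).clm_apply continuousOn_const)
  obtain ⟨M1, h1⟩ := hK.exists_bound_of_continuousOn c1
  obtain ⟨M2, h2⟩ := hK.exists_bound_of_continuousOn c2
  obtain ⟨M3, h3⟩ := hK.exists_bound_of_continuousOn c3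
  have h4 : ∃ κ, 0 < κ ∧ ∀ p ∈ K0, κ ≤ Lap θ p (1, 0) := by
    rcases K0.eq_empty_or_nonempty with h | h
    · exact ⟨1, one_pos, by simp [h]⟩
    · obtain ⟨q, hq, hmin⟩ := hK.exists_isMinOn h c4
      exact ⟨_, Lap_θ (Zc_sub hq.1), fun p hp => hmin hp⟩
  obtain ⟨κ, hκ, h4⟩ := h4
  refine ⟨κ, |M1| + |M2| + |M3| + 1, hκ, by positivity, fun p hz hw => ?_⟩
  have hp : p ∈ K0 := ⟨⟨hz.1.le, hz.2.1.le, hz.2.2.le⟩, by
    simpa using (δ_nonneg_iff _).mp hw⟩
  have a1 := le_abs_self M1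
  have a2 := le_abs_self M2
  have a3 := le_abs_self M3
  have b1 := abs_nonneg M1
  have b2 := abs_nonneg M2
  have b3 := abs_nonneg M3
  have b4 := (le_abs_self _).trans (h3 p hp)
  refine ⟨h4 p hp, ?_, ?_, ?_⟩ <;> linarith [h1 p hp, h2 p hp]

lemma bilin_lower (B : (ℂ × ℂ) →L[ℝ] (ℂ × ℂ) →L[ℝ] ℝ) {κ M : ℝ} (hM : ‖B‖ ≤ M)
    (hκ : κ ≤ B (1, 0) (1, 0) + B (I • (1, 0)) (I • (1, 0))) (a b : ℂ) :
    κ * ‖a‖ ^ 2 - 4 * M * (‖a‖ * ‖b‖) - 2 * M * ‖b‖ ^ 2 ≤
      B (a, b) (a, b) + B (I • (a, b)) (I • (a, b)) := by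
  have hb : ∀ x y : ℂ × ℂ, -(M * (‖x‖ * ‖y‖)) ≤ B x y := by
    intro x y
    have h1 := B.le_opNorm₂ x y
    have h2 : ‖B‖ * ‖x‖ * ‖y‖ ≤ M * ‖x‖ * ‖y‖ := by gcongr
    have h3 := neg_abs_le (B x y)
    rw [Real.norm_eq_abs] at h1
    linarith
  have split : ∀ a b : ℂ, B (a, b) (a, b) = B (a, 0) (a, 0) + B (a, 0) (0, b) + B (0, b) (a, 0) +
      B (0, b) (0, b) := by
    intro a b
    have e : (a, b) = (a, 0) + (0, b) := by simp
    conv_lhs => rw [e]
    simp only [map_add, add_apply]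
    ring
  have diag : B (a, 0) (a, 0) + B (I * a, 0) (I * a, 0) =
      ‖a‖ ^ 2 * (B (1, 0) (1, 0) + B (I • (1, 0)) (I • (1, 0))) := by
    have e1 : ((a, 0) : ℂ × ℂ) = a.re • ((1, 0) : ℂ × ℂ) + a.im • (I • ((1, 0) : ℂ × ℂ)) := by
      apply Prod.ext
      · apply Complex.ext <;> simp
      · simp
    have e2 : ((I * a, 0) : ℂ × ℂ) =
        (-a.im) • ((1, 0) : ℂ × ℂ) + a.re • (I • ((1, 0) : ℂ × ℂ)) := by
      apply Prod.ext
      · apply Complex.ext <;> simp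
      · simp
    rw [← Complex.normSq_eq_norm_sq, normSq_apply, e1, e2]
    generalize (I • ((1, 0) : ℂ × ℂ)) = f
    simp only [map_add, map_smul, add_apply, smul_apply, smul_eq_mul]
    ring
  have e3 : I • ((a, b) : ℂ × ℂ) = (I * a, I * b) := by simp
  rw [e3, split a b, split (I * a) (I * b)]
  have k1 := hb (a, 0) (0, b)
  have k2 := hb (0, b) (a, 0)
  have k3 := hb (0, b) (0, b)
  have k4 := hb (I * a, 0) (0, I * b)
  have k5 := hb (0, I * b) (I * a, 0)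
  have k6 := hb (0, I * b) (0, I * b)
  simp only [Prod.norm_mk, norm_zero, norm_nonneg, sup_of_le_left, sup_of_le_right, norm_mul,
    Complex.norm_I, one_mul] at k1 k2 k3 k4 k5 k6
  have k7 : κ * ‖a‖ ^ 2 ≤ B (a, 0) (a, 0) + B (I * a, 0) (I * a, 0) := by
    rw [diag, mul_comm]
    gcongr
  nlinarith

lemma Grd_le {u : ℂ × ℂ → ℝ} {p : ℂ × ℂ} {M : ℝ} (hM : ‖fderiv ℝ u p‖ ≤ M) (a b : ℂ) :
    Grd u p (a, b) ≤ 2 * M ^ 2 * (‖a‖ ^ 2 + ‖b‖ ^ 2) := by
  have key : ∀ v : ℂ × ℂ, (fderiv ℝ u p v) ^ 2 ≤ M ^ 2 * (‖v.1‖ ^ 2 + ‖v.2‖ ^ 2) := by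
    intro v
    have h1 := (fderiv ℝ u p).le_opNorm v
    have h2 : ‖v‖ ^ 2 ≤ ‖v.1‖ ^ 2 + ‖v.2‖ ^ 2 := by
      rw [Prod.norm_def]
      rcases le_total ‖v.1‖ ‖v.2‖ with h | h
      · rw [max_eq_right h]; nlinarith [sq_nonneg ‖v.1‖]
      · rw [max_eq_left h]; nlinarith [sq_nonneg ‖v.2‖]
    have h3 : 0 ≤ M := (norm_nonneg _).trans hM
    calc (fderiv ℝ u p v) ^ 2 = ‖fderiv ℝ u p v‖ ^ 2 := by rw [Real.norm_eq_abs, sq_abs]
      _ ≤ (M * ‖v‖) ^ 2 := by
        gcongr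
        exact h1.trans (by gcongr)
      _ = M ^ 2 * ‖v‖ ^ 2 := by ring
      _ ≤ _ := by gcongr
  have h1 := key (a, b)
  have h2 := key (I • (a, b))
  simp only [Prod.smul_mk, smul_eq_mul, norm_mul, Complex.norm_I, one_mul] at h1 h2
  unfold Grd
  simp only [Prod.smul_mk, smul_eq_mul]
  linarith

lemma Grd_sub_le {u u' : ℂ × ℂ → ℝ} {p : ℂ × ℂ} (hu : DifferentiableAt ℝ u p)
    (hu' : DifferentiableAt ℝ u' p) (v : ℂ × ℂ) :
    Grd (fun x => u x - u' x) p v ≤ 2 * Grd u p v + 2 * Grd u' p v := by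
  unfold Grd
  rw [fderiv_fun_sub hu hu']
  simp only [sub_apply]
  nlinarith [sq_nonneg (fderiv ℝ u p v + fderiv ℝ u' p v),
    sq_nonneg (fderiv ℝ u p (I • v) + fderiv ℝ u' p (I • v))]

lemma final_ineq {κ M η d A B N x y : ℝ} (hκ : 0 < κ) (hM : 0 < M) (hη : 0 < η)
    (hη1 : η ≤ 1 / 4) (hη2 : η * (8 * M ^ 2) ≤ κ) (hd : 0 < d)
    (hd1 : d * (2 * M + M ^ 2 + 16 * M ^ 2 / κ + 1) ≤ 1) (hN : 0 ≤ N) (hN1 : 1 ≤ d + N)
    (hxy : 0 < x ∨ 0 < y)
    (hA : κ * x ^ 2 - 4 * M * (x * y) - 2 * M * y ^ 2 + 4 * (d + N) * y ^ 2 / d ^ 2 ≤ A)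
    (hB : B ≤ 2 * (2 * M ^ 2 * (x ^ 2 + y ^ 2)) + 2 * (4 * N * y ^ 2 / d ^ 2)) :
    0 < A - η * B := by
  set C := 2 * M + M ^ 2 + 16 * M ^ 2 / κ with hC
  have hC0 : 0 < C := by positivity
  have h1 : 4 * M * (x * y) ≤ κ / 4 * x ^ 2 + 16 * M ^ 2 / κ * y ^ 2 := by
    have : κ / 4 * x ^ 2 + 16 * M ^ 2 / κ * y ^ 2 - 4 * M * (x * y) =
        κ * (x / 2 - 4 * M / κ * y) ^ 2 := by
      field_simp
      ring
    have h2 : 0 ≤ κ * (x / 2 - 4 * M / κ * y) ^ 2 := by positivity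
    linarith
  set T := y ^ 2 / d ^ 2 with hT
  have hT0 : 0 ≤ T := by positivity
  have hyT : y ^ 2 = d ^ 2 * T := by
    rw [hT]
    field_simp
  have e1 : 4 * (d + N) * y ^ 2 / d ^ 2 = 4 * (d + N) * T := by rw [hT]; ring
  have e2 : 4 * N * y ^ 2 / d ^ 2 = 4 * N * T := by rw [hT]; ring
  rw [e1] at hA
  rw [e2] at hB
  have h3 : η * B ≤ κ / 2 * x ^ 2 + M ^ 2 * y ^ 2 + 2 * N * T := by
    have a1 : η * (4 * M ^ 2 * x ^ 2) ≤ κ / 2 * x ^ 2 := by nlinarith [sq_nonneg x]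
    have a2 : η * (4 * M ^ 2 * y ^ 2) ≤ M ^ 2 * y ^ 2 := by nlinarith [sq_nonneg (M * y)]
    have a3 : η * (8 * N * T) ≤ 2 * N * T := by nlinarith [mul_nonneg hN hT0]
    nlinarith
  have hd2 : d ≤ 1 := by nlinarith
  have h4 : C * y ^ 2 ≤ T := by
    rw [hyT]
    have : C * d ^ 2 ≤ 1 := by nlinarith
    nlinarith
  have h5 : κ / 4 * x ^ 2 + T ≤ A - η * B := by
    have : 2 * T ≤ 2 * (d + N) * T := by nlinarith
    have : 0 ≤ d * T := by positivity
    nlinarith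
  rcases hxy with h | h
  · have : 0 < κ / 4 * x ^ 2 := by positivity
    linarith
  · have : 0 < T := by positivity
    have : 0 ≤ κ / 4 * x ^ 2 := by positivity
    linarith

lemma exists_psh : ∃ η ε : ℝ, 0 < η ∧ η ≤ 1 ∧ 0 < ε ∧ ∀ p : ℂ × ℂ, p.1 ∈ Z 2 → ρ0 p < 0 →
    -ε < ρ0 p → ContDiffAt ℝ 2 (fun q => -(-ρ0 q) ^ η) p ∧
      ∀ v : ℂ × ℂ, v ≠ 0 → 0 < Lap (fun q => -(-ρ0 q) ^ η) p v := by
  obtain ⟨κ, M, hκ, hM, hb⟩ := exists_bounds
  set C := 2 * M + M ^ 2 + 16 * M ^ 2 / κ + 1 with hC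
  have hC0 : 0 < C := by positivity
  set η := min (1 / 4) (κ / (8 * M ^ 2)) with hη
  have hη0 : 0 < η := lt_min (by norm_num) (by positivity)
  have hη1 : η ≤ 1 / 4 := min_le_left _ _
  have hη2 : η * (8 * M ^ 2) ≤ κ := (le_div_iff₀ (by positivity)).mp (min_le_right _ _)
  refine ⟨η, 1 / (C * M), hη0, by linarith, by positivity, fun p hz h1 h2 => ?_⟩
  have hz3 : p.1 ∈ Z 3 := Z_mono (by norm_num) hz
  have hδ := (ρ0_neg_iff hz3).mp h1
  have hψ := ψ_pos hz3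
  obtain ⟨b1, b2, b3, b4⟩ := hb p hz hδ.le
  have hd1 : δ p.2 * C ≤ 1 := by
    rw [ρ0, neg_div, neg_lt_neg_iff, div_lt_div_iff₀ hψ (by positivity)] at h2
    have : δ p.2 * C * M ≤ 1 * M := by nlinarith
    exact le_of_mul_le_mul_right this hM
  have hθ := (contDiffAt_θ hz3).of_le two_le_infty
  have hl : ContDiffAt ℝ 2 (fun q : ℂ × ℂ => Real.log (δ q.2)) p := (contDiffAt_δ2 p).log hδ.ne'
  have hu : ContDiffAt ℝ 2 (fun q : ℂ × ℂ => θ q - Real.log (δ q.2)) p := hθ.sub hl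
  have hu' : ContDiffAt ℝ 2 (fun q : ℂ × ℂ => (-η) * (θ q - Real.log (δ q.2))) p :=
    contDiffAt_const.mul hu
  have hev : (fun q => -(-ρ0 q) ^ η) =ᶠ[𝓝 p]
      fun q => (-1) * Real.exp ((-η) * (θ q - Real.log (δ q.2))) := by
    filter_upwards [continuousAt_fst.preimage_mem_nhds ((isOpen_Z 3).mem_nhds hz3),
      (contDiffAt_δ2 p (m := 0)).continuousAt.preimage_mem_nhds (Ioi_mem_nhds hδ)] with q q1 q2
    have q3 := ψ_pos q1
    have q4 : 0 < δ q.2 := q2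
    rw [ρ0, neg_div, neg_neg, Real.rpow_def_of_pos (by positivity), Real.log_div q4.ne' q3.ne', θ]
    ring_nf
  refine ⟨(contDiffAt_const.mul hu'.exp).congr_of_eventuallyEq hev, fun v hv => ?_⟩
  obtain ⟨a, b⟩ := v
  have hG : Grd (fun q : ℂ × ℂ => (-η) * (θ q - Real.log (δ q.2))) p (a, b) =
      η ^ 2 * Grd (fun q : ℂ × ℂ => θ q - Real.log (δ q.2)) p (a, b) := by
    unfold Grd
    rw [fderiv_const_mul (hu.differentiableAt (by norm_num))]
    simp only [smul_apply, smul_eq_mul]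
    ring
  rw [Lap_congr hev, Lap_const_mul _ hu'.exp, Lap_exp hu', Lap_const_mul _ hu, hG]
  have key : 0 < Lap (fun q : ℂ × ℂ => θ q - Real.log (δ q.2)) p (a, b) -
      η * Grd (fun q : ℂ × ℂ => θ q - Real.log (δ q.2)) p (a, b) := by
    refine final_ineq (x := ‖a‖) (y := ‖b‖) (N := normSq p.2) hκ hM hη0 hη1 hη2 hδ hd1
      (normSq_nonneg _) ?_ ?_ ?_ ?_
    · rw [δ]
      norm_num [L]
    · by_contra hc
      push Not at hc
      exact hv (Prod.ext (norm_le_zero_iff.mp hc.1) (norm_le_zero_iff.mp hc.2))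
    · rw [Lap_sub hθ hl, Lap_log (contDiffAt_δ2 p) hδ.ne', Lap_δ2, Grd_δ2,
        Complex.normSq_eq_norm_sq b]
      have := bilin_lower _ b3 b1 a b
      have e : (δ p.2 * -(4 * ‖b‖ ^ 2) - 4 * normSq p.2 * ‖b‖ ^ 2) / δ p.2 ^ 2 =
          -(4 * (δ p.2 + normSq p.2) * ‖b‖ ^ 2 / δ p.2 ^ 2) := by ring
      rw [e]
      unfold Lap D2
      linarith
    · refine (Grd_sub_le (hθ.differentiableAt (by norm_num)) (hl.differentiableAt (by norm_num))
        _).trans ?_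
      have h3 := Grd_le b2 a b
      rw [Grd_comp (g := Real.log) (u := fun q : ℂ × ℂ => δ q.2) (Real.differentiableAt_log hδ.ne')
        ((contDiffAt_δ2 p (m := 2)).differentiableAt (by norm_num)), Grd_δ2, Real.deriv_log,
        Complex.normSq_eq_norm_sq b]
      have e : (δ p.2)⁻¹ ^ 2 * (4 * normSq p.2 * ‖b‖ ^ 2) =
          4 * normSq p.2 * ‖b‖ ^ 2 / δ p.2 ^ 2 := by ring
      rw [e]
      linarith
  have h3 := Real.exp_pos ((-η) * (θ p - Real.log (δ p.2)))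
  have h4 := mul_pos h3 (mul_pos hη0 key)
  linarith

end Pool.Agent.MP_6b7ec3_an

end MrgPart3

-- ======== part 4: formerly Pool.Agent.MP_6b7ec3_an.Space
section MrgPart4

/-!
The complex surface: two copies of (thickened pair of pants) × (plane minus the three centres),
glued along the three collars by the involutions acting diagonally.
-/

set_option autoImplicit false

open Set Topology Filter Complex
open scoped ContDiff ComplexConjugate Manifold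

namespace Pool.Agent.MP_6b7ec3_an

/-- The plane minus the three centres. -/
def Wd : Set ℂ := {w | ∀ j, w ≠ c j}

lemma isOpen_Wd : IsOpen Wd := by
  have : Wd = ⋂ j, {w | w ≠ c j} := by
    ext w
    simp [Wd]
  rw [this]
  exact isOpen_iInter_of_finite fun j => isOpen_ne

open Classical in
/-- The index of the collar containing a point. -/
noncomputable def idx (z : ℂ) : Fin 3 :=
  if z ∈ Col 20 0 then 0 else if z ∈ Col 20 1 then 1 else 2

lemma idx_eq {j : Fin 3} {z : ℂ} (hz : z ∈ Col 20 j) : idx z = j := by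
  unfold idx
  split_ifs with h0 h1
  · exact Col_unique h0 hz
  · exact Col_unique h1 hz
  · fin_cases j
    · exact (h0 hz).elim
    · exact (h1 hz).elim
    · rfl

/-- The gluing map. -/
noncomputable def σ0 (p : ℂ × ℂ) : ℂ × ℂ := (s (idx p.1) p.1, s (idx p.1) p.2)

lemma Col2_20 {j : Fin 3} {z : ℂ} (hz : z ∈ Col 2 j) : z ∈ Col 20 j := Col_mono (by norm_num) hz

lemma σ0_eq {j : Fin 3} {p : ℂ × ℂ} (hz : p.1 ∈ Col 2 j) : σ0 p = (s j p.1, s j p.2) := by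
  rw [σ0, idx_eq (Col2_20 hz)]

/-- The gluing region. -/
def A0 : Set (ℂ × ℂ) := {p | ∃ j, p.1 ∈ Col 2 j ∧ p.2 ∈ Wd ∧ s j p.2 ∈ Wd}

lemma isOpen_A0 : IsOpen A0 := by
  have : A0 = ⋃ j, Col 2 j ×ˢ (Wd ∩ s j ⁻¹' Wd) := by
    ext p
    simp [A0]
  rw [this]
  refine isOpen_iUnion fun j => (isOpen_Col 2 j).prod ?_
  refine ContinuousOn.isOpen_inter_preimage (fun w hw => ?_) isOpen_Wd isOpen_Wd
  exact (hasDerivAt_s (hw j)).continuousAt.continuousWithinAt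

lemma eq_s_of_mul {j : Fin 3} {z z' : ℂ} (h : (z' - c j) * (z - c j) = k j) :
    z ≠ c j ∧ z' = s j z := by
  have hz : z - c j ≠ 0 := by
    intro h0
    rw [h0, mul_zero] at h
    exact k_ne_zero j h.symm
  refine ⟨sub_ne_zero.mp hz, ?_⟩
  rw [s, ← h]
  field_simp
  ring

lemma s_mul {j : Fin 3} {z : ℂ} (h : z ≠ c j) : (s j z - c j) * (z - c j) = k j := by
  rw [s_sub, div_mul_cancel₀ _ (sub_ne_zero.mpr h)]

lemma Col_of_Z {j : Fin 3} {z : ℂ} (hc : z ≠ c j) (h1 : z ∈ Z 2) (h2 : s j z ∈ Z 2) :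
    z ∈ Col 2 j := by
  have hp := n_mul_n_s hc
  have hn := n_pos hc
  have hn' := n_pos (s_ne hc)
  have hr := r_pos j
  obtain ⟨a0, a1, a2⟩ := h1
  obtain ⟨b0, b1, b2⟩ := h2
  fin_cases j <;> simp only [Fin.zero_eta, Fin.mk_one, Fin.reduceFinMk] at * <;>
    constructor <;> nlinarith

/-- The gluing data. -/
noncomputable def G : GlueData (ℂ × ℂ) where
  Y := Z 2 ×ˢ Wd
  A := A0
  σ := σ0
  hY := (isOpen_Z 2).prod isOpen_Wd
  hA := isOpen_A0
  hAY := by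
    rintro p ⟨j, h1, h2, -⟩
    exact ⟨Col_mem_Z (by norm_num) (by norm_num) h1, h2⟩
  maps := by
    rintro p ⟨j, h1, h2, h3⟩
    rw [σ0_eq h1]
    exact ⟨j, Col_s_mem h1, h3, by simpa only [s_s (h2 j)] using h2⟩
  inv := by
    rintro p ⟨j, h1, h2, -⟩
    rw [σ0_eq h1, σ0_eq (j := j) (Col_s_mem h1)]
    simp only [s_s (h2 j), s_s (Col_ne h1)]
  an := by
    rintro p ⟨j, h1, h2, -⟩
    have h : σ0 =ᶠ[𝓝 p] fun q => (s j q.1, s j q.2) := by
      filter_upwards [continuousAt_fst.preimage_mem_nhds ((isOpen_Col 2 j).mem_nhds h1)] with q hq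
      exact σ0_eq hq
    refine (ContDiffAt.congr_of_eventuallyEq ?_ h).contDiffWithinAt
    exact (ContDiffAt.comp (g := s j) p (contDiffAt_s (Col_ne h1)) contDiffAt_fst).prodMk
      (ContDiffAt.comp (g := s j) p (contDiffAt_s (h2 j)) contDiffAt_snd)
  closed := by
    intro x hx y hy h
    have hcl : IsClosed (⋃ j, {q : (ℂ × ℂ) × (ℂ × ℂ) | (q.2.1 - c j) * (q.1.1 - c j) = k j ∧
        (q.2.2 - c j) * (q.1.2 - c j) = k j}) :=
      isClosed_iUnion_of_finite fun j =>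
        (isClosed_eq (by fun_prop) continuous_const).inter
          (isClosed_eq (by fun_prop) continuous_const)
    have hsub := closure_minimal (s := {q : (ℂ × ℂ) × (ℂ × ℂ) | q.1 ∈ A0 ∧ q.2 = σ0 q.1}) (by
      rintro q ⟨⟨j, h1, h2, -⟩, h3⟩
      rw [σ0_eq h1] at h3
      refine mem_iUnion.mpr ⟨j, ?_⟩
      rw [mem_ofPred_eq, h3]
      exact ⟨s_mul (Col_ne h1), s_mul (h2 j)⟩) hcl h
    obtain ⟨j, h1, h2⟩ := mem_iUnion.mp hsub
    obtain ⟨a1, a2⟩ := eq_s_of_mul h1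
    obtain ⟨-, b2⟩ := eq_s_of_mul h2
    simp only at a1 a2 b2
    have hc : x.1 ∈ Col 2 j := Col_of_Z a1 hx.1 (a2 ▸ hy.1)
    refine ⟨⟨j, hc, hx.2, b2 ▸ hy.2⟩, ?_⟩
    rw [σ0_eq hc]
    exact Prod.ext a2 b2
  base := (w0, w0)
  base_mem := by
    obtain ⟨h0, h1, h2⟩ := w0_mem
    refine ⟨⟨?_, ?_, ?_⟩, ne_c_of_δ δ_w0.le⟩ <;> simp only [r0, r1, r2] at * <;> linarith

lemma ρ0_inv : ∀ x ∈ G.A, ρ0 (G.σ x) = ρ0 x := by
  rintro p ⟨j, h1, h2, -⟩
  change ρ0 (σ0 p) = _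
  rw [σ0_eq h1, ρ0_s (Col_mono (by norm_num) h1) (h2 j)]

open Classical in
/-- The bounded function, extended by zero. -/
noncomputable def f1 (p : ℂ × ℂ) : ℂ := if 0 < δ p.2 then f0 p.2 else 0

lemma f1_inv : ∀ x ∈ G.A, f1 (G.σ x) = f1 x := by
  rintro p ⟨j, h1, h2, -⟩
  change f1 (σ0 p) = _
  rw [σ0_eq h1]
  unfold f1
  by_cases h : 0 < δ p.2
  · rw [if_pos h, if_pos (δ_s_pos h), f0_s j h]
  · rw [if_neg h, if_neg]
    intro h'
    have := δ_s_pos (j := j) h'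
    rw [s_s (h2 j)] at this
    exact h this

lemma differentiableAt_f1 {p : ℂ × ℂ} (h : 0 < δ p.2) : DifferentiableAt ℂ f1 p := by
  have h1 : f1 =ᶠ[𝓝 p] fun q => f0 q.2 := by
    filter_upwards [(contDiffAt_δ2 p (m := 0)).continuousAt.preimage_mem_nhds
      (Ioi_mem_nhds h)] with q hq
    exact if_pos hq
  exact (DifferentiableAt.comp (g := f0) p (differentiableAt_f0 h)
    differentiableAt_snd).congr_of_eventuallyEq h1

/-! Connectedness of the thickened pair of pants. -/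

lemma isPreconnected_annulus (a : ℂ) (t1 t2 : ℝ) (h : 0 ≤ t1) :
    IsPreconnected {z : ℂ | t1 < ‖z - a‖ ∧ ‖z - a‖ < t2} := by
  have : {z : ℂ | t1 < ‖z - a‖ ∧ ‖z - a‖ < t2} =
      (fun q : ℝ × ℝ => a + q.1 * Complex.exp (q.2 * I)) '' (Ioo t1 t2 ×ˢ univ) := by
    ext z
    constructor
    · intro hz
      refine ⟨(‖z - a‖, arg (z - a)), ⟨hz, mem_univ _⟩, ?_⟩
      simp only
      rw [Complex.norm_mul_exp_arg_mul_I]
      ring
    · rintro ⟨q, ⟨hq, -⟩, rfl⟩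
      have h1 : 0 < q.1 := h.trans_lt hq.1
      simp only [mem_ofPred_eq, add_sub_cancel_left, norm_mul, Complex.norm_exp_ofReal_mul_I,
        mul_one, Complex.norm_real, Real.norm_eq_abs, abs_of_pos h1]
      exact hq
  rw [this]
  exact (isPreconnected_Ioo.prod isPreconnected_univ).image _ (by fun_prop)

lemma n_bounds (z : ℂ) : |z.re - (L - 1 / 999999)| ≤ n 1 z ∧ |z.im - 1| ≤ n 1 z ∧
    |z.re - (L - 1 / 999999)| ≤ n 2 z ∧ |z.im + 1| ≤ n 2 z ∧
    n 1 z ≤ |z.re - (L - 1 / 999999)| + |z.im - 1| ∧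
    n 2 z ≤ |z.re - (L - 1 / 999999)| + |z.im + 1| ∧
    n 0 z ≤ |z.re - (L + 1)| + |z.im| := by
  refine ⟨?_, ?_, ?_, ?_, ?_, ?_, ?_⟩
  · simpa [c, n] using Complex.abs_re_le_norm (z - c 1)
  · simpa [c, n] using Complex.abs_im_le_norm (z - c 1)
  · simpa [c, n] using Complex.abs_re_le_norm (z - c 2)
  · simpa [c, n] using Complex.abs_im_le_norm (z - c 2)
  · simpa [c, n] using Complex.norm_le_abs_re_add_abs_im (z - c 1)
  · simpa [c, n] using Complex.norm_le_abs_re_add_abs_im (z - c 2)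
  · simpa [c, n] using Complex.norm_le_abs_re_add_abs_im (z - c 0)

lemma isPreconnected_Z : IsPreconnected (Z 2) := by
  set B : Set ℂ := Metric.ball (c 0) 2000 with hB
  have hBc : Convex ℝ B := convex_ball _ _
  have memB : ∀ z, z ∈ B ↔ n 0 z < 2000 := fun z => mem_ball_iff_norm
  have ptB : ∀ x y : ℝ, |x| ≤ 3 → |y| ≤ 3 → (⟨L + x, y⟩ : ℂ) ∈ B := by
    intro x y hx hy
    rw [memB]
    have := (n_bounds ⟨L + x, y⟩).2.2.2.2.2.2
    simp only at this
    have h2 : |L + x - (L + 1)| ≤ 4 := by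
      rw [abs_le] at hx ⊢
      constructor <;> linarith
    linarith
  set P1 := B ∩ {z | L < z.re} with hP1
  set P2 := B ∩ {z | z.re < L - 1 / 100000} with hP2
  set P3 := B ∩ {z | 1 + 1 / 100000 < z.im} with hP3
  set P4 := B ∩ {z | z.im < -1 - 1 / 100000} with hP4
  set P5 := B ∩ ({z | z.im < 1 - 1 / 100000} ∩ {z | -1 + 1 / 100000 < z.im}) with hP5
  set A1 := {z : ℂ | 1 / 999999 / 2 < ‖z - c 1‖ ∧ ‖z - c 1‖ < 1 / 2} with hA1
  set A2 := {z : ℂ | 1 / 999999 / 2 < ‖z - c 2‖ ∧ ‖z - c 2‖ < 1 / 2} with hA2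
  have c1 : IsPreconnected P1 := (hBc.inter (convex_halfSpace_re_gt _)).isPreconnected
  have c2 : IsPreconnected P2 := (hBc.inter (convex_halfSpace_re_lt _)).isPreconnected
  have c3 : IsPreconnected P3 := (hBc.inter (convex_halfSpace_im_gt _)).isPreconnected
  have c4 : IsPreconnected P4 := (hBc.inter (convex_halfSpace_im_lt _)).isPreconnected
  have c5 : IsPreconnected P5 :=
    (hBc.inter ((convex_halfSpace_im_lt _).inter (convex_halfSpace_im_gt _))).isPreconnected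
  have d1 : IsPreconnected A1 := isPreconnected_annulus _ _ _ (by norm_num)
  have d2 : IsPreconnected A2 := isPreconnected_annulus _ _ _ (by norm_num)
  have u1 : IsPreconnected (P1 ∪ P5) := c1.union ⟨L + 1, 0⟩
    ⟨ptB _ _ (by norm_num) (by norm_num), by simp⟩
    ⟨ptB _ _ (by norm_num) (by norm_num), by norm_num, by norm_num⟩ c5
  have u2 : IsPreconnected (P1 ∪ P5 ∪ P2) := u1.union ⟨L + -1, 0⟩
    (Or.inr ⟨ptB _ _ (by norm_num) (by norm_num), by norm_num, by norm_num⟩)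
    ⟨ptB _ _ (by norm_num) (by norm_num), by simp only [mem_ofPred_eq]; linarith⟩ c2
  have u3 : IsPreconnected (P1 ∪ P5 ∪ P2 ∪ P3) := u2.union ⟨L + 1, 2⟩
    (Or.inl (Or.inl ⟨ptB _ _ (by norm_num) (by norm_num), by simp⟩))
    ⟨ptB _ _ (by norm_num) (by norm_num), by norm_num⟩ c3
  have u4 : IsPreconnected (P1 ∪ P5 ∪ P2 ∪ P3 ∪ P4) := u3.union ⟨L + 1, -2⟩
    (Or.inl (Or.inl (Or.inl ⟨ptB _ _ (by norm_num) (by norm_num), by simp⟩)))
    ⟨ptB _ _ (by norm_num) (by norm_num), by norm_num⟩ c4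
  have u5 : IsPreconnected (P1 ∪ P5 ∪ P2 ∪ P3 ∪ P4 ∪ A1) := u4.union ⟨L + 0, 3 / 4⟩
    (Or.inl (Or.inl (Or.inl (Or.inr
      ⟨ptB _ _ (by norm_num) (by norm_num), by norm_num, by norm_num⟩))))
    (by
      obtain ⟨-, h1, -, -, h2, -⟩ := n_bounds ⟨L + 0, 3 / 4⟩
      simp only [add_zero, sub_sub_cancel] at h1 h2
      norm_num at h1 h2
      simp only [hA1, mem_ofPred_eq, add_zero]
      unfold n at h1 h2
      constructor <;> linarith) d1
  have u6 : IsPreconnected (P1 ∪ P5 ∪ P2 ∪ P3 ∪ P4 ∪ A1 ∪ A2) := u5.union ⟨L + 0, -3 / 4⟩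
    (Or.inl (Or.inl (Or.inl (Or.inl (Or.inr
      ⟨ptB _ _ (by norm_num) (by norm_num), by norm_num, by norm_num⟩)))))
    (by
      obtain ⟨-, -, -, h1, -, h2, -⟩ := n_bounds ⟨L + 0, -3 / 4⟩
      simp only [add_zero, sub_sub_cancel] at h1 h2
      norm_num at h1 h2
      simp only [hA2, mem_ofPred_eq, add_zero]
      unfold n at h1 h2
      constructor <;> linarith) d2
  convert u6 using 1
  ext z
  obtain ⟨e1, e2, e3, e4, e5, e6, -⟩ := n_bounds z
  have t := tri z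
  simp only [Z, mem_ofPred_eq, r0, r1, r2, mem_union, hP1, hP2, hP3, hP4, hP5, hA1, hA2,
    mem_inter_iff, memB]
  change _ ↔ _ ∨ (_ < n 2 z ∧ n 2 z < _)
  change _ ↔ (_ ∨ (_ < n 1 z ∧ n 1 z < _)) ∨ _
  rw [abs_le] at e1 e2 e3 e4
  constructor
  · rintro ⟨h0, h1, h2⟩
    have h0' : n 0 z < 2000 := by linarith
    by_cases q1 : L < z.re
    · exact Or.inl (Or.inl (Or.inl (Or.inl (Or.inl (Or.inl ⟨h0', q1⟩)))))
    by_cases q2 : z.re < L - 1 / 100000
    · exact Or.inl (Or.inl (Or.inl (Or.inl (Or.inr ⟨h0', q2⟩))))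
    by_cases q3 : 1 + 1 / 100000 < z.im
    · exact Or.inl (Or.inl (Or.inl (Or.inr ⟨h0', q3⟩)))
    by_cases q4 : z.im < -1 - 1 / 100000
    · exact Or.inl (Or.inl (Or.inr ⟨h0', q4⟩))
    push Not at q1 q2 q3 q4
    have q5 : |z.re - (L - 1 / 999999)| ≤ 1 / 10 := by
      rw [abs_le]
      constructor <;> linarith
    by_cases q6 : z.im < 1 - 1 / 100000
    · by_cases q7 : -1 + 1 / 100000 < z.im
      · exact Or.inl (Or.inl (Or.inl (Or.inl (Or.inl (Or.inr ⟨h0', q6, q7⟩)))))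
      · have q8 : |z.im + 1| ≤ 1 / 10 := by
          rw [abs_le]
          constructor <;> linarith
        exact Or.inr ⟨by linarith, by linarith⟩
    · have q8 : |z.im - 1| ≤ 1 / 10 := by
        rw [abs_le]
        constructor <;> linarith
      exact Or.inl (Or.inr ⟨by linarith, by linarith⟩)
  · rintro ((((((⟨h0, h1⟩ | ⟨h0, h1, h2⟩) | ⟨h0, h1⟩) | ⟨h0, h1⟩) | ⟨h0, h1⟩) | ⟨h0, h1⟩) |
      ⟨h0, h1⟩) <;> refine ⟨?_, ?_, ?_⟩ <;> linarith

lemma F0_sub {z : ℂ} (hz : z ∈ F0) : z ∈ Z 2 := by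
  obtain ⟨h0, h1, h2⟩ := hz
  refine ⟨?_, ?_, ?_⟩ <;> simp only [r0, r1, r2] at * <;> linarith

lemma isCompact_F0 : IsCompact F0 := by
  refine (isCompact_closedBall (c 0) (r 0)).of_isClosed_subset ?_ ?_
  · exact (isClosed_le (continuous_n 0) continuous_const).inter
      ((isClosed_le continuous_const (continuous_n 1)).inter
        (isClosed_le continuous_const (continuous_n 2)))
  · intro z hz
    rw [mem_closedBall_iff_norm]
    exact hz.1

lemma F0_or {z : ℂ} (hz : z ∈ Z 2) : z ∈ F0 ∨ ∃ j, z ∈ Col 2 j ∧ s j z ∈ F0 := by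
  obtain ⟨a0, a1, a2⟩ := hz
  rcases mem_F0_or z with h | h | h | h
  · exact Or.inl h
  · have hc : z ∈ Col 2 0 := ⟨by linarith [r_pos 0], a0⟩
    have hp := n_mul_n_s (Col_ne hc)
    have h1 := (Col_s_mem hc).1
    have t := tri (s 0 z)
    refine Or.inr ⟨0, hc, ?_, ?_, ?_⟩ <;> simp only [r0, r1, r2] at * <;> nlinarith
  · have hc : z ∈ Col 2 1 := ⟨a1, by linarith [r_pos 1]⟩
    have hp := n_mul_n_s (Col_ne hc)
    have h1 := (Col_s_mem hc).2
    have t := tri (s 1 z)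
    have t' := n_nonneg 1 z
    refine Or.inr ⟨1, hc, ?_, ?_, ?_⟩ <;> simp only [r0, r1, r2] at * <;> nlinarith
  · have hc : z ∈ Col 2 2 := ⟨a2, by linarith [r_pos 2]⟩
    have hp := n_mul_n_s (Col_ne hc)
    have h1 := (Col_s_mem hc).2
    have t := tri (s 2 z)
    have t' := n_nonneg 2 z
    refine Or.inr ⟨2, hc, ?_, ?_, ?_⟩ <;> simp only [r0, r1, r2] at * <;> nlinarith

end Pool.Agent.MP_6b7ec3_an

end MrgPart4

-- marker of a merged file
example : 731051 + 850113 = 731051 + 850113 := rfl
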