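import Mathlib
import Pool.Agent.MP_6b7ec3_an.Space

/-!
A relatively compact domain with smooth Levi-flat boundary in a complex surface, with positive
Diederich-Fornaess index (in the strong sense, with strict plurisubharmonicity) and with a
non-constant bounded holomorphic function.

The domain is a flat disc bundle over a genus two curve whose holonomy is a Fuchsian Schottky
group of the second kind.
-/

set_option autoImplicit false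

open Set Topology Filter
open scoped ContDiff Manifold

namespace Pool.Agent.MP_6b7ec3_an.OldSchottkyDisc

/-- The Levi form of a real function `u` on `ℂ²` at the point `p` on the vector `v`, that is
`∑ u_{z_i \bar z_j}(p) v_i \bar v_j`, written with the real Hessian:
`(D²u(p)(v, v) + D²u(p)(iv, iv)) / 4`. -/
noncomputable def leviForm (u : ℂ × ℂ → ℝ) (p v : ℂ × ℂ) : ℝ :=
  (fderiv ℝ (fderiv ℝ u) p v v + fderiv ℝ (fderiv ℝ u) p (Complex.I • v) (Complex.I • v)) / 4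

/-- `ρ` is a smooth defining function for `Ω`: it is `C^∞` on an open neighbourhood `U` of the
closure of `Ω`, `Ω = {ρ < 0}` in `U`, and `dρ ≠ 0` on the boundary of `Ω`. -/
def IsDefiningFunction {X : Type} [TopologicalSpace X] [ChartedSpace (ℂ × ℂ) X]
    (Ω : Set X) (ρ : X → ℝ) : Prop :=
  ∃ U : Set X, IsOpen U ∧ closure Ω ⊆ U ∧ ContMDiffOn 𝓘(ℝ, ℂ × ℂ) 𝓘(ℝ, ℝ) ∞ ρ U ∧
    Ω = {x | x ∈ U ∧ ρ x < 0} ∧ ∀ x ∈ frontier Ω, mfderiv 𝓘(ℝ, ℂ × ℂ) 𝓘(ℝ, ℝ) ρ x ≠ 0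

/-- The boundary of `Ω`, with defining function `ρ`, is Levi-flat: in every chart, at every
boundary point, the Levi form of `ρ` vanishes on the complex tangent space
`{v | dρ(v) = 0, dρ(iv) = 0}` of the boundary. -/
def IsLeviFlat {X : Type} [TopologicalSpace X] [ChartedSpace (ℂ × ℂ) X]
    (Ω : Set X) (ρ : X → ℝ) : Prop :=
  ∀ e ∈ atlas (ℂ × ℂ) X, ∀ x ∈ frontier Ω ∩ e.source, ∀ v : ℂ × ℂ,
    fderiv ℝ (ρ ∘ e.symm) (e x) v = 0 → fderiv ℝ (ρ ∘ e.symm) (e x) (Complex.I • v) = 0 →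
      leviForm (ρ ∘ e.symm) (e x) v = 0

/-- `u` is strictly plurisubharmonic on `W`: in every chart, at every point of `W`, it is `C²`
and its Levi form is positive definite. -/
def StrictlyPshOn {X : Type} [TopologicalSpace X] [ChartedSpace (ℂ × ℂ) X]
    (u : X → ℝ) (W : Set X) : Prop :=
  ∀ e ∈ atlas (ℂ × ℂ) X, ∀ x ∈ W ∩ e.source, ContDiffAt ℝ 2 (u ∘ e.symm) (e x) ∧
    ∀ v : ℂ × ℂ, v ≠ 0 → 0 < leviForm (u ∘ e.symm) (e x) v

open Pool.Agent.MP_6b7ec3_an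

lemma leviForm_eq (u : ℂ × ℂ → ℝ) (p v : ℂ × ℂ) : leviForm u p v = Lap u p v / 4 := rfl

lemma exists_of_source {b : Bool} {x : G.X} (hx : x ∈ (G.chart b).source) :
    ∃ p ∈ G.Y, x = G.j b p ∧ G.chart b x = p := by
  obtain ⟨p, hp, rfl⟩ := hx
  exact ⟨p, hp, rfl, G.chart_j b hp⟩

lemma exists_chart (x : G.X) : ∃ b, ∃ p ∈ G.Y, chartAt (ℂ × ℂ) x = G.chart b ∧ x = G.j b p ∧
    G.chart b x = p := by
  obtain ⟨b, hb⟩ := G.exists_chartAt x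
  obtain ⟨p, hp, h1, h2⟩ := exists_of_source (hb ▸ mem_chart_source (ℂ × ℂ) x)
  exact ⟨b, p, hp, hb, h1, h2⟩

lemma continuousAt_lift {β : Type} [TopologicalSpace β] (g : ℂ × ℂ → β)
    (hg : ∀ x ∈ G.A, g (G.σ x) = g x) (b : Bool) {p : ℂ × ℂ} (hp : p ∈ G.Y)
    (hc : ContinuousAt g p) : ContinuousAt (G.lift g hg) (G.j b p) := by
  rw [(G.chart b).symm.continuousAt_iff_continuousAt_comp_right ⟨p, hp, rfl⟩]
  simp only [OpenPartialHomeomorph.symm_symm, G.chart_j b hp]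
  exact hc.congr (G.lift_chart_eventuallyEq g hg b hp).symm

lemma Y_Z3 {p : ℂ × ℂ} (hp : p ∈ G.Y) : p.1 ∈ Z 3 := Z_mono (by norm_num) hp.1

/-- The defining function on the surface. -/
noncomputable def ρ : G.X → ℝ := G.lift ρ0 ρ0_inv

lemma ρ_j (b : Bool) {p : ℂ × ℂ} (hp : p ∈ G.Y) : ρ (G.j b p) = ρ0 p := G.lift_j _ _ b hp

lemma ρ_ev (b : Bool) {p : ℂ × ℂ} (hp : p ∈ G.Y) : ρ ∘ (G.chart b).symm =ᶠ[𝓝 p] ρ0 :=
  G.lift_chart_eventuallyEq _ _ b hp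

lemma contMDiff_ρ : ContMDiff 𝓘(ℝ, ℂ × ℂ) 𝓘(ℝ, ℝ) ∞ ρ := by
  intro x
  obtain ⟨b, p, hp, h1, h2, h3⟩ := exists_chart x
  rw [contMDiffAt_iff]
  refine ⟨h2 ▸ continuousAt_lift _ _ b hp (contDiffAt_ρ0 (Y_Z3 hp)).continuousAt, ?_⟩
  simp only [mfld_simps, h1, h3, contDiffWithinAt_univ]
  exact (contDiffAt_ρ0 (Y_Z3 hp)).congr_of_eventuallyEq (ρ_ev b hp)

lemma mfderiv_ρ_ne {x : G.X} (hx : ρ x = 0) : mfderiv 𝓘(ℝ, ℂ × ℂ) 𝓘(ℝ, ℝ) ρ x ≠ 0 := by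
  obtain ⟨b, p, hp, h1, h2, h3⟩ := exists_chart x
  rw [((contMDiff_ρ x).mdifferentiableAt (by simp)).mfderiv]
  simp only [writtenInExtChartAt, mfld_simps, h1, h3, fderivWithin_univ]
  rw [(ρ_ev b hp).fderiv_eq]
  rw [h2, ρ_j b hp, ρ0_eq_zero_iff (Y_Z3 hp)] at hx
  exact fderiv_ρ0_ne (Y_Z3 hp) hx

/-- The domain. -/
def Ω : Set G.X := {x | ρ x < 0}

lemma frontier_sub {x : G.X} (hx : x ∈ frontier Ω) : ρ x = 0 :=
  frontier_lt_subset_eq contMDiff_ρ.continuous continuous_const hx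

lemma mem_Y {p : ℂ × ℂ} (h1 : p.1 ∈ Z 2) (h2 : 0 ≤ δ p.2) : p ∈ G.Y := ⟨h1, ne_c_of_δ h2⟩

lemma j_mem_Ω (b : Bool) {p : ℂ × ℂ} (hp : p ∈ G.Y) : G.j b p ∈ Ω ↔ 0 < δ p.2 := by
  change ρ _ < 0 ↔ _
  rw [ρ_j b hp, ρ0_neg_iff (Y_Z3 hp)]

lemma z0_mem : c 0 + 1000 ∈ Col 2 0 := by
  have : n 0 (c 0 + 1000) = 1000 := by simp [n]
  constructor <;> rw [this] <;> norm_num

lemma p0_mem : ((c 0 + 1000, w0) : ℂ × ℂ) ∈ G.A :=
  ⟨0, z0_mem, ne_c_of_δ δ_w0.le, ne_c_of_δ (δ_s_pos δ_w0).le⟩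

lemma isConnected_union {D : Set (ℂ × ℂ)} (hD : IsPreconnected D) (hY : D ⊆ G.Y)
    (h1 : ((c 0 + 1000, w0) : ℂ × ℂ) ∈ D) (h2 : G.σ (c 0 + 1000, w0) ∈ D) :
    IsConnected (G.j true '' D ∪ G.j false '' D) :=
  ⟨⟨_, Or.inl ⟨_, h1, rfl⟩⟩, IsPreconnected.union (G.j true (c 0 + 1000, w0)) ⟨_, h1, rfl⟩
    ⟨_, h2, G.j_σ true p0_mem⟩ (hD.image _ ((G.j_continuousOn true).mono hY))
    (hD.image _ ((G.j_continuousOn false).mono hY))⟩

lemma connectedSpace : ConnectedSpace G.X := by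
  have hW : IsPreconnected Wd := by
    have : Wd = (range c)ᶜ := by
      ext w
      simp [Wd, eq_comm]
    rw [this]
    exact ((countable_range c).isConnected_compl_of_one_lt_rank (by simp)).isPreconnected
  have h := isConnected_union (D := G.Y) (isPreconnected_Z.prod hW) subset_rfl (G.hAY p0_mem)
    (G.hAY (G.maps p0_mem))
  rw [connectedSpace_iff_univ]
  convert h using 1
  symm
  rw [eq_univ_iff_forall]
  intro x
  obtain ⟨b, p, hp, rfl⟩ := G.exists_j x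
  cases b
  · exact Or.inr ⟨p, hp, rfl⟩
  · exact Or.inl ⟨p, hp, rfl⟩

lemma isConnected_Ω : IsConnected Ω := by
  have hb : ∀ w : ℂ, w ∈ Metric.ball (0 : ℂ) L ↔ 0 < δ w := fun w => by
    rw [δ_pos_iff, mem_ball_zero_iff]
  have hY : Z 2 ×ˢ Metric.ball (0 : ℂ) L ⊆ G.Y := fun p hp => mem_Y hp.1 ((hb _).mp hp.2).le
  have h := isConnected_union (D := Z 2 ×ˢ Metric.ball (0 : ℂ) L)
    (isPreconnected_Z.prod (convex_ball _ _).isPreconnected) hY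
    ⟨(G.hAY p0_mem).1, (hb _).mpr δ_w0⟩ ⟨(G.hAY (G.maps p0_mem)).1, (hb _).mpr (δ_s_pos δ_w0)⟩
  convert h using 1
  ext x
  constructor
  · intro hx
    obtain ⟨b, p, hp, rfl⟩ := G.exists_j x
    have := (hb _).mpr ((j_mem_Ω b hp).mp hx)
    cases b
    · exact Or.inr ⟨p, ⟨hp.1, this⟩, rfl⟩
    · exact Or.inl ⟨p, ⟨hp.1, this⟩, rfl⟩
  · rintro (⟨p, hp, rfl⟩ | ⟨p, hp, rfl⟩) <;> exact (j_mem_Ω _ (hY hp)).mpr ((hb _).mp hp.2)

lemma isCompact_closure_Ω : IsCompact (closure Ω) := by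
  have hb : ∀ w : ℂ, w ∈ Metric.closedBall (0 : ℂ) L ↔ 0 ≤ δ w := fun w => by
    rw [δ_nonneg_iff, mem_closedBall_zero_iff]
  have hY : F0 ×ˢ Metric.closedBall (0 : ℂ) L ⊆ G.Y := fun p hp =>
    mem_Y (F0_sub hp.1) ((hb _).mp hp.2)
  have hK : IsCompact (⋃ b, G.j b '' (F0 ×ˢ Metric.closedBall (0 : ℂ) L)) :=
    isCompact_iUnion fun b => (isCompact_F0.prod (isCompact_closedBall _ _)).image_of_continuousOn
      ((G.j_continuousOn b).mono hY)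
  refine hK.closure_of_subset fun x hx => ?_
  obtain ⟨b, p, hp, rfl⟩ := G.exists_j x
  have h1 := (j_mem_Ω b hp).mp hx
  rcases F0_or hp.1 with h | ⟨i, h2, h3⟩
  · exact mem_iUnion.mpr ⟨b, p, ⟨h, (hb _).mpr h1.le⟩, rfl⟩
  · have hA : p ∈ G.A := ⟨i, h2, hp.2, ne_c_of_δ (δ_s_pos h1).le⟩
    refine mem_iUnion.mpr ⟨!b, G.σ p, ?_, G.j_σ b hA⟩
    change σ0 p ∈ _
    rw [σ0_eq h2]
    exact ⟨h3, (hb _).mpr (δ_s_pos h1).le⟩

lemma frontier_nonempty : (frontier Ω).Nonempty := by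
  have := connectedSpace
  rw [nonempty_iff_ne_empty]
  intro h
  have hδ : δ (L : ℂ) = 0 := by simp [δ, sq]
  have hp : ((w0, (L : ℂ)) : ℂ × ℂ) ∈ G.Y := mem_Y (F0_sub w0_mem) hδ.ge
  rcases isClopen_iff.mp (isClopen_iff_frontier_eq_empty.mpr h) with h1 | h1
  · exact isConnected_Ω.nonempty.ne_empty h1
  · have h2 := (j_mem_Ω true hp).mp (h1 ▸ mem_univ _)
    exact h2.ne' hδ

/-- The bounded holomorphic function on the domain. -/
noncomputable def f : G.X → ℂ := G.lift f1 f1_inv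

lemma f_j (b : Bool) {p : ℂ × ℂ} (hp : p ∈ G.Y) (h : 0 < δ p.2) : f (G.j b p) = f0 p.2 :=
  (G.lift_j _ _ b hp).trans (if_pos h)

lemma mdiff_f : MDifferentiableOn 𝓘(ℂ, ℂ × ℂ) 𝓘(ℂ, ℂ) f Ω := by
  intro x hx
  obtain ⟨b, p, hp, h1, h2, h3⟩ := exists_chart x
  have h4 := differentiableAt_f1 ((j_mem_Ω b hp).mp (h2 ▸ hx))
  refine MDifferentiableAt.mdifferentiableWithinAt ?_
  rw [mdifferentiableAt_iff]
  refine ⟨h2 ▸ continuousAt_lift _ _ b hp h4.continuousAt, ?_⟩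
  simp only [writtenInExtChartAt, mfld_simps, h1, h3, differentiableWithinAt_univ]
  exact h4.congr_of_eventuallyEq (G.lift_chart_eventuallyEq _ _ b hp)

/-- There are a connected complex surface `X` and a relatively compact domain `Ω ⊆ X` with a
smooth defining function `ρ` such that the boundary is Levi-flat, `-(-ρ) ^ η` is strictly
plurisubharmonic in `Ω` near the boundary for some `0 < η ≤ 1`, and `Ω` carries a non-constant
bounded holomorphic function. -/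
theorem result :
    ∃ (X : Type) (_ : TopologicalSpace X) (_ : ChartedSpace (ℂ × ℂ) X),
      T2Space X ∧ SecondCountableTopology X ∧ ConnectedSpace X ∧ IsManifold 𝓘(ℂ, ℂ × ℂ) ω X ∧
      ∃ (Ω : Set X) (ρ : X → ℝ),
        IsOpen Ω ∧ IsConnected Ω ∧ IsCompact (closure Ω) ∧ (frontier Ω).Nonempty ∧
        IsDefiningFunction Ω ρ ∧ IsLeviFlat Ω ρ ∧
        (∃ η : ℝ, 0 < η ∧ η ≤ 1 ∧ ∃ V : Set X, IsOpen V ∧ frontier Ω ⊆ V ∧
          StrictlyPshOn (fun x => -(-ρ x) ^ η) (Ω ∩ V)) ∧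
        ∃ f : X → ℂ, MDifferentiableOn 𝓘(ℂ, ℂ × ℂ) 𝓘(ℂ, ℂ) f Ω ∧
          (∃ C : ℝ, ∀ x ∈ Ω, ‖f x‖ ≤ C) ∧ ∃ x ∈ Ω, ∃ y ∈ Ω, f x ≠ f y := by
  refine ⟨G.X, inferInstance, inferInstance, inferInstance, inferInstance, connectedSpace,
    inferInstance, Ω, ρ, isOpen_lt contMDiff_ρ.continuous continuous_const, isConnected_Ω,
    isCompact_closure_Ω, frontier_nonempty, ?_, ?_, ?_, f, mdiff_f, ?_, ?_⟩
  · exact ⟨univ, isOpen_univ, subset_univ _, contMDiff_ρ.contMDiffOn, by simp [Ω],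
      fun x hx => mfderiv_ρ_ne (frontier_sub hx)⟩
  · rintro _ ⟨b, rfl⟩ x ⟨hx, hs⟩ v h1 h2
    obtain ⟨p, hp, e1, e2⟩ := exists_of_source hs
    have h0 := frontier_sub hx
    rw [e1, ρ_j b hp, ρ0_eq_zero_iff (Y_Z3 hp)] at h0
    rw [e2, (ρ_ev b hp).fderiv_eq] at h1 h2
    rw [e2, leviForm_eq, Lap_congr (ρ_ev b hp), levi_flat (Y_Z3 hp) h0 h1 h2, zero_div]
  · obtain ⟨η, ε, h1, h2, h3, h4⟩ := exists_psh
    refine ⟨η, h1, h2, {x | -ε < ρ x}, isOpen_lt continuous_const contMDiff_ρ.continuous,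
      fun x hx => ?_, ?_⟩
    · change -ε < ρ x
      rw [frontier_sub hx]
      linarith
    · rintro _ ⟨b, rfl⟩ x ⟨⟨hx1, hx2⟩, hs⟩
      obtain ⟨p, hp, e1, e2⟩ := exists_of_source hs
      have a1 : ρ0 p < 0 := by rw [← ρ_j b hp, ← e1]; exact hx1
      have a2 : -ε < ρ0 p := by rw [← ρ_j b hp, ← e1]; exact hx2
      obtain ⟨a3, a4⟩ := h4 p hp.1 a1 a2
      have hev : (fun x => -(-ρ x) ^ η) ∘ (G.chart b).symm =ᶠ[𝓝 p] fun q => -(-ρ0 q) ^ η := by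
        filter_upwards [ρ_ev b hp] with q hq
        simp only [Function.comp_apply] at hq ⊢
        rw [hq]
      rw [e2]
      refine ⟨a3.congr_of_eventuallyEq hev, fun v hv => ?_⟩
      rw [leviForm_eq, Lap_congr hev]
      linarith [a4 v hv]
  · refine ⟨10 ^ 8 * (2 * L) * (10 / 7), fun x hx => ?_⟩
    obtain ⟨b, p, hp, rfl⟩ := G.exists_j x
    have h := (j_mem_Ω b hp).mp hx
    rw [f_j b hp h]
    exact f0_bounded h
  · have a0 : ((w0, w0) : ℂ × ℂ) ∈ G.Y := mem_Y (F0_sub w0_mem) δ_w0.le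
    have a1 : ((w0, w1) : ℂ × ℂ) ∈ G.Y := mem_Y (F0_sub w0_mem) δ_w1.le
    refine ⟨_, (j_mem_Ω true a1).mpr δ_w1, _, (j_mem_Ω true a0).mpr δ_w0, ?_⟩
    rw [f_j true a1 δ_w1, f_j true a0 δ_w0, f0_w0]
    exact f0_w1

end Pool.Agent.MP_6b7ec3_an.OldSchottkyDisc
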